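import Pool.Agent.Work.MP_8aaf67_al.Hyper

/-!
# The statement of the problem in terms of words in a free group, and the final theorems
-/

open Subgroup

set_option linter.unusedSectionVars false
set_option linter.style.haveILetI false

namespace MP_8aaf67

universe u

/-- Every Sylow p-subgroup P of w(G) is generated by the values of w that it contains. -/
def SylowGen (p : ℕ) (w : FreeGroup ℕ) (G : Type*) [Group G] : Prop :=
  ∀ P : Sylow p (closure (wordValues w G)),
    closure {x : G | x ∈ (P : Subgroup (closure (wordValues w G))).map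
        (closure (wordValues w G)).subtype ∧ x ∈ wordValues w G} =
      (P : Subgroup (closure (wordValues w G))).map (closure (wordValues w G)).subtype

/-- S is a section of G (a homomorphic image of a subgroup). -/
def IsSectionOf (S : Type*) [Group S] (G : Type*) [Group G] : Prop :=
  ∃ (H : Subgroup G) (f : H →* S), Function.Surjective f

/-- p-soluble: every simple section of order divisible by p is commutative. -/
def PSoluble (p : ℕ) (G : Type u) [Group G] : Prop :=
  ∀ (S : Type u) [Group S], IsSectionOf S G → IsSimpleGroup S → p ∣ Nat.card S →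
    ∀ a b : S, a * b = b * a

/-- The left-normed word [x_0, x_1, ..., x_n]. -/
def leftNormed : ℕ → FreeGroup ℕ
  | 0 => FreeGroup.of 0
  | n + 1 => cm (leftNormed n) (FreeGroup.of (n + 1))

/-- The derived word of height k, in 2^k variables. -/
def derivedWord : ℕ → FreeGroup ℕ
  | 0 => FreeGroup.of 0
  | k + 1 => cm (FreeGroup.map (fun i => 2 * i) (derivedWord k))
      (FreeGroup.map (fun i => 2 * i + 1) (derivedWord k))

/-- The tree of the derived word. -/
def dtree : ℕ → Tree
  | 0 => Tree.var
  | k + 1 => Tree.comm (dtree k) (dtree k)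

theorem wordValues_of (i : ℕ) (G : Type*) [Group G] :
    wordValues (FreeGroup.of i) G = vals Tree.var G := by
  ext g
  simp only [vals, Set.mem_univ, iff_true]
  exact ⟨fun _ => g, by simp⟩

theorem derivedWord_values (k : ℕ) (G : Type*) [Group G] :
    wordValues (derivedWord k) G = vals (dtree k) G := by
  induction k with
  | zero => exact wordValues_of 0 G
  | succ k ih =>
    ext g
    constructor
    · rintro ⟨f, rfl⟩
      refine ⟨FreeGroup.lift (fun i => f (2 * i)) (derivedWord k), ?_,
        FreeGroup.lift (fun i => f (2 * i + 1)) (derivedWord k), ?_, ?_⟩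
      · rw [← ih]; exact ⟨_, rfl⟩
      · rw [← ih]; exact ⟨_, rfl⟩
      · rw [derivedWord, map_cm]
        congr 1
        · rw [← MonoidHom.comp_apply]
          congr 1
          ext i
          simp
        · rw [← MonoidHom.comp_apply]
          congr 1
          ext i
          simp
    · rintro ⟨x, hx, y, hy, rfl⟩
      rw [← ih] at hx hy
      obtain ⟨f1, rfl⟩ := hx
      obtain ⟨f2, rfl⟩ := hy
      refine ⟨fun i => if i % 2 = 0 then f1 (i / 2) else f2 (i / 2), ?_⟩
      rw [derivedWord, map_cm]
      congr 1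
      · rw [← MonoidHom.comp_apply]
        congr 1
        ext i
        simp
      · rw [← MonoidHom.comp_apply]
        congr 1
        ext i
        have h1 : (2 * i + 1) % 2 = 1 := by omega
        have h2 : (2 * i + 1) / 2 = i := by omega
        simp [h1, h2]

theorem leftNormed_mcw (n : ℕ) : IsMCW (Finset.range (n + 1)) (leftNormed n) := by
  induction n with
  | zero => exact IsMCW.var 0
  | succ n ih =>
    have h : Finset.range (n + 1 + 1) = Finset.range (n + 1) ∪ {n + 1} := by
      ext i
      simp only [Finset.mem_range, Finset.mem_union, Finset.mem_singleton]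
      omega
    rw [h]
    exact IsMCW.comm (by simp) ih (IsMCW.var (n + 1))

theorem leftNormed_hasTree (n : ℕ) : HasTree (leftNormed n) (gam n) := by
  induction n with
  | zero => exact HasTree.var 0
  | succ n ih =>
    exact HasTree.comm (s := Finset.range (n + 1)) (t := {n + 1}) (by simp) (leftNormed_mcw n)
      (IsMCW.var (n + 1)) ih (HasTree.var (n + 1))

section
variable {p : ℕ} [Fact p.Prime] {G : Type*} [Group G] [Finite G]

theorem sylowGen_iff {w : FreeGroup ℕ} {t : Tree} (hv : wordValues w G = vals t G) :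
    SylowGen p w G ↔ A p t G := by
  have hcl : closure (wordValues w G) = verb t G := by rw [hv]; rfl
  constructor
  · intro h B hB
    have h1 : SylIn p (B ⊓ closure (wordValues w G)) (closure (wordValues w G)) := by
      rw [hcl]
      exact hB.inf_normal le_top
    obtain ⟨Q, hQ⟩ := h1.exists_sylow_sub
    have h2 := h Q
    rw [hQ, map_subgroupOf_eq_of_le inf_le_right] at h2
    rw [← hcl]
    rw [← h2]
    refine closure_mono ?_
    rintro x ⟨hx1, hx2⟩
    rw [hv] at hx2
    exact ⟨(mem_inf.1 hx1).1, hx2⟩
  · intro h P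
    have h1 := SylIn.of_sylow_sub P
    set Q := (P : Subgroup (closure (wordValues w G))).map (closure (wordValues w G)).subtype
      with hQ
    obtain ⟨B, hQB, hB⟩ := SylIn.exists_ge (p := p) h1.2.1 (le_top : Q ≤ ⊤)
    have h2 : SylIn p Q (verb t G) := by rw [← hcl]; exact h1
    have h3 : Q = B ⊓ verb t G :=
      h2.eq_of_le (le_inf hQB h2.1) inf_le_right (hB.2.1.to_le inf_le_left)
    refine le_antisymm ?_ ?_
    · rw [closure_le]
      rintro x ⟨hx, -⟩
      exact hx
    · intro x hx
      rw [h3] at hx
      have h4 := h B hB hx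
      refine closure_mono ?_ h4
      rintro y ⟨hy1, hy2⟩
      refine ⟨?_, ?_⟩
      · rw [h3]
        exact mem_inf.2 ⟨hy1, vals_subset_verb t hy2⟩
      · rw [hv]; exact hy2

end

theorem vals_dtree_succ_subset (k : ℕ) (G : Type*) [Group G] :
    vals (dtree (k + 1)) G ⊆ vals (dtree k) G := by
  induction k with
  | zero => exact fun _ _ => trivial
  | succ k ih =>
    rintro _ ⟨a, ha, b, hb, rfl⟩
    exact ⟨a, ih ha, b, ih hb, rfl⟩

theorem vals_dtree_antitone {j k : ℕ} (h : j ≤ k) (G : Type*) [Group G] :
    vals (dtree k) G ⊆ vals (dtree j) G := by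
  induction h with
  | refl => exact subset_rfl
  | step _ ih => exact (vals_dtree_succ_subset _ G).trans ih

theorem exists_dtree_subset (t : Tree) : ∃ k, ∀ (G : Type u) [Group G],
    vals (dtree k) G ⊆ vals t G := by
  induction t with
  | var => exact ⟨0, fun G _ => subset_rfl⟩
  | comm a b iha ihb =>
    obtain ⟨k1, h1⟩ := iha
    obtain ⟨k2, h2⟩ := ihb
    refine ⟨max k1 k2 + 1, fun G _ => ?_⟩
    rintro _ ⟨x, hx, y, hy, rfl⟩
    exact ⟨x, h1 G (vals_dtree_antitone (le_max_left _ _) G hx), y,
      h2 G (vals_dtree_antitone (le_max_right _ _) G hy), rfl⟩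

theorem A_of_derived {p : ℕ} {G : Type u} [Group G] (hG : commutator G = ⊤)
    (h : ∀ k, A p (dtree k) G) (t : Tree) : A p t G := by
  obtain ⟨k, hk⟩ := exists_dtree_subset.{u} t
  intro B hB x hx
  have h1 : x ∈ B ⊓ verb (dtree k) G := by
    rw [verb_perfect hG]
    exact ⟨(mem_inf.1 hx).1, mem_top x⟩
  have h2 : (B : Set G) ∩ vals (dtree k) G ⊆ (B : Set G) ∩ vals t G :=
    Set.inter_subset_inter_right _ (hk G)
  exact Subgroup.closure_mono h2 (h k B hB h1)

theorem IsSectionOf.sub {G : Type*} [Group G] {X : Type*} [Group X] (h : IsSectionOf X G)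
    (Y : Subgroup X) : IsSectionOf Y G := by
  obtain ⟨H, f, hf⟩ := h
  refine ⟨(Y.comap f).map H.subtype, ?_, ?_⟩
  · exact (f.subgroupComap Y).comp
      ((Y.comap f).equivMapOfInjective H.subtype H.subtype_injective).symm.toMonoidHom
  · have h1 : Function.Surjective (f.subgroupComap Y) := by
      rintro ⟨y, hy⟩
      obtain ⟨x, rfl⟩ := hf y
      exact ⟨⟨x, hy⟩, rfl⟩
    exact h1.comp (((Y.comap f).equivMapOfInjective H.subtype H.subtype_injective).symm.surjective)

theorem IsSectionOf.quot {G : Type*} [Group G] {X : Type*} [Group X] (h : IsSectionOf X G)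
    (N : Subgroup X) [N.Normal] : IsSectionOf (X ⧸ N) G := by
  obtain ⟨H, f, hf⟩ := h
  exact ⟨H, (QuotientGroup.mk' N).comp f, (QuotientGroup.mk'_surjective N).comp hf⟩

theorem IsSectionOf.self (G : Type*) [Group G] : IsSectionOf G G :=
  ⟨⊤, (⊤ : Subgroup G).subtype, fun g => ⟨⟨g, mem_top g⟩, rfl⟩⟩

/-- The reduction, for one group. -/
theorem section_reduction (p : ℕ) [Fact p.Prime] (G : Type u) [Group G] [Finite G]
    (h : ∀ (S : Type u) [Group S] [Finite S], IsSectionOf S G → commutator S = ⊤ →
      p ∣ Nat.card S → ¬ p ∣ Nat.card (frattini S) → IsSimpleGroup (S ⧸ frattini S) →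
      ∀ k, SylowGen p (derivedWord k) S) (t : Tree) : A p t G := by
  refine main_class p (fun X _ => IsSectionOf X G) (fun X _ H hX => hX.sub H)
    (fun X _ N _ hX => hX.quot N) (fun _ => True) (fun _ _ _ => ⟨trivial, trivial⟩) ?_ t trivial
    G (IsSectionOf.self G)
  intro S _ _ hS hp hd hf hs t _
  exact A_of_derived hp (fun k => (sylowGen_iff (derivedWord_values k S)).1 (h S hS hp hd hf hs k)) t

theorem psoluble_all (p : ℕ) [Fact p.Prime] (G : Type u) [Group G] [Finite G]
    (hG : PSoluble p G) (t : Tree) : A p t G := by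
  refine section_reduction p G ?_ t
  intro S _ _ hS hp hd hf hs
  exfalso
  have h1 : p ∣ Nat.card (S ⧸ frattini S) := by
    rw [← card_mul_index (frattini S), (Fact.out : p.Prime).dvd_mul] at hd
    rcases hd with hd | hd
    · exact absurd hd hf
    · rwa [← index_eq_card]
  have h2 := hG (S ⧸ frattini S) (hS.quot _) hs h1
  have h3 : commutator S ≤ frattini S := by
    rw [commutator_def, commutator_le]
    intro a _ b _
    rw [← QuotientGroup.eq_one_iff, commutatorElement_def]
    have h4 := h2 (a : S ⧸ frattini S) (b : S ⧸ frattini S)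
    have h5 : ((a * b * a⁻¹ * b⁻¹ : S) : S ⧸ frattini S)
        = (a : S ⧸ frattini S) * b * (a : S ⧸ frattini S)⁻¹ * (b : S ⧸ frattini S)⁻¹ := rfl
    rw [h5, h4]
    group
  rw [hp, top_le_iff] at h3
  have h4 : Nontrivial (S ⧸ frattini S) := hs.toNontrivial
  obtain ⟨x, hx⟩ := exists_ne (1 : S ⧸ frattini S)
  obtain ⟨y, rfl⟩ := QuotientGroup.mk_surjective x
  exact hx ((QuotientGroup.eq_one_iff y).2 (h3 ▸ mem_top y))

end MP_8aaf67
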