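import Pool.Agent.Work.MP_8aaf67_al.Perf

/-!
# The reduction theorem for a class of groups
-/

open Subgroup
open scoped commutatorElement Pointwise

set_option linter.unusedSectionVars false
set_option linter.style.haveILetI false

namespace MP_8aaf67

universe u

section
variable {p : ℕ} [Fact p.Prime] {G : Type u} [Group G]

theorem A_var : A p Tree.var G := by
  intro B _ x hx
  exact subset_closure ⟨hx.1, trivial⟩

theorem exists_perfect_residual (G : Type u) [Group G] [Finite G] (h1 : ¬ Group.IsSolvable G)
    (h2 : commutator G ≠ ⊤) :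
    ∃ R : Subgroup G, R.Normal ∧ commutator R = ⊤ ∧ R ≠ ⊥ ∧ R ≠ ⊤ := by
  obtain ⟨_, ⟨n, rfl⟩, hmin⟩ := Nat.lt_wfRel.wf.has_min
    (Set.range (fun n => Nat.card (derivedSeries G n))) ⟨_, 0, rfl⟩
  have h3 : derivedSeries G (n + 1) = derivedSeries G n := by
    have hle : derivedSeries G (n + 1) ≤ derivedSeries G n := derivedSeries_antitone G (Nat.le_succ n)
    refine eq_of_le_of_card_ge hle ?_
    have := hmin _ ⟨n + 1, rfl⟩
    exact not_lt.1 this
  refine ⟨derivedSeries G n, inferInstance, ?_, ?_, ?_⟩
  · have h4 : (commutator (derivedSeries G n)).map (derivedSeries G n).subtype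
        = derivedSeries G n := by
      rw [map_subtype_commutator]; exact h3
    have h5 : (commutator (derivedSeries G n)).map (derivedSeries G n).subtype
        = (⊤ : Subgroup (derivedSeries G n)).map (derivedSeries G n).subtype := by
      rw [h4, ← MonoidHom.range_eq_map, range_subtype]
    exact map_injective (derivedSeries G n).subtype_injective h5
  · intro h
    exact h1 ⟨n, h⟩
  · intro h
    apply h2
    rw [h, derivedSeries_succ, h] at h3
    exact h3

end

theorem main_class (p : ℕ) [Fact p.Prime] (C : (G : Type u) → [Group G] → Prop)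
    (hsub : ∀ (G : Type u) [Group G] (H : Subgroup G), C G → C H)
    (hquot : ∀ (G : Type u) [Group G] (N : Subgroup G) [N.Normal], C G → C (G ⧸ N))
    (W : Tree → Prop) (hW : ∀ u v, W (Tree.comm u v) → W u ∧ W v)
    (hbad : ∀ (G : Type u) [Group G] [Finite G], C G → commutator G = ⊤ → p ∣ Nat.card G →
      ¬ p ∣ Nat.card (frattini G) → IsSimpleGroup (G ⧸ frattini G) → ∀ t, W t → A p t G) :
    ∀ t, W t → ∀ (G : Type u) [Group G] [Finite G], C G → A p t G := by
  intro t
  induction t with
  | var => intro _ G _ _ _; exact A_var
  | comm u v ihu ihv =>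
    intro hWt
    obtain ⟨hWu, hWv⟩ := hW u v hWt
    have key : ∀ n : ℕ, ∀ (G : Type u) [Group G] [Finite G], Nat.card G = n → C G →
        A p (Tree.comm u v) G := by
      intro n
      induction n using Nat.strong_induction_on with
      | _ n ih =>
        intro G _ _ hn hC
        have hu : A p u G := ihu hWu G hC
        have hv : A p v G := ihv hWv G hC
        have hY : ∀ Y : Subgroup G, Y ≠ ⊤ → A p (Tree.comm u v) Y := by
          intro Y hYt
          refine ih (Nat.card Y) ?_ Y rfl (hsub G Y hC)
          rw [← hn]
          refine lt_of_le_of_ne (card_le_card_group Y) (fun h => hYt ?_)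
          exact card_eq_iff_eq_top Y |>.1 h
        have hQ : ∀ (N : Subgroup G) [N.Normal], N ≠ ⊥ → A p (Tree.comm u v) (G ⧸ N) := by
          intro N hN hNb
          refine ih (Nat.card (G ⧸ N)) ?_ (G ⧸ N) rfl (hquot G N hC)
          rw [← hn, ← index_eq_card, ← card_mul_index N]
          have h1 : 1 < Nat.card N := by
            have h2 : Nat.card N ≠ 1 := fun h => hNb (card_eq_one.1 h)
            have h3 : 0 < Nat.card N := Nat.card_pos
            omega
          have h4 : 0 < N.index := Nat.pos_of_ne_zero index_ne_zero_of_finite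
          nlinarith
        by_cases h1 : Group.IsSolvable G
        · exact solvable_case hu hv hY hQ
        · by_cases h2 : commutator G = ⊤
          · exact perfect_case h2 hu hv hY hQ
              (fun h3 h4 h5 => hbad G hC h2 h3 h4 h5 _ hWt)
          · obtain ⟨R, hR, hRp, hRb, hRt⟩ := exists_perfect_residual G h1 h2
            haveI := hR
            exact perfect_normal_case hY hRp hRb hRt
    intro G _ _ hC
    exact key _ G rfl hC

end MP_8aaf67
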