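import Pool.Agent.Work.MP_8aaf67_al.Class

/-!
# The hyperfocal argument for the lower central words
-/

open Subgroup
open scoped commutatorElement Pointwise

set_option linter.unusedSectionVars false
set_option linter.style.haveILetI false

namespace MP_8aaf67

universe u

/-- Bracketings of the lower central words. -/
def gam : ℕ → Tree
  | 0 => Tree.var
  | n + 1 => Tree.comm (gam n) Tree.var

section
variable {G : Type*} [Group G]

theorem cm_pow_eq_one {x q : G} (h : Commute (cm q x) x) {m : ℕ} (hx : x ^ m = 1) :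
    (cm q x) ^ m = 1 := by
  have key : ∀ j : ℕ, (x ^ j)⁻¹ * q * x ^ j = q * (cm q x) ^ j := by
    intro j
    induction j with
    | zero => simp
    | succ j ih =>
      have e1 : (x ^ (j + 1))⁻¹ * q * x ^ (j + 1) = x⁻¹ * ((x ^ j)⁻¹ * q * x ^ j) * x := by
        rw [pow_succ]; group
      have e2 : x⁻¹ * q * x = q * cm q x := by simp only [cm]; group
      have e3 : x⁻¹ * (cm q x) ^ j * x = (cm q x) ^ j := by
        have := (h.pow_left j).eq
        rw [mul_assoc, this]; group
      rw [e1, ih]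
      calc x⁻¹ * (q * cm q x ^ j) * x = (x⁻¹ * q * x) * (x⁻¹ * cm q x ^ j * x) := by group
        _ = _ := by rw [e2, e3, pow_succ']; group
  have h1 := key m
  rw [hx] at h1
  have h2 : q * 1 = q * (cm q x) ^ m := by rw [← h1]; group
  exact (mul_left_cancel h2).symm

theorem pow_coprime_mem {E : Subgroup G} {c : G} {a b : ℕ} (h1 : c ^ a ∈ E) (h2 : c ^ b ∈ E)
    (hab : Nat.Coprime a b) : c ∈ E := by
  have hb := Nat.gcd_eq_gcd_ab a b
  rw [hab.gcd_eq_one] at hb
  have h6 : c ^ (1 : ℤ) ∈ E := by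
    have : ((1 : ℕ) : ℤ) = 1 := by norm_num
    rw [this] at hb
    rw [hb, zpow_add, zpow_mul, zpow_mul, zpow_natCast, zpow_natCast]
    exact E.mul_mem (zpow_mem h1 _) (zpow_mem h2 _)
  simpa using h6

/-- Coprime action: [Q, x, x] inside E implies [Q, x] inside E. -/
theorem coprime_step {p : ℕ} {Q E : Subgroup G} (hQ : IsPGroup p Q) {x : G}
    (hxo : Nat.Coprime (orderOf x) p) (hxQ : x ∈ normalizer (Q : Set G))
    (hxE : x ∈ normalizer (E : Set G)) (hQE : Q ≤ normalizer (E : Set G))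
    (h : ∀ q ∈ Q, cm (cm q x) x ∈ E) : ∀ q ∈ Q, cm q x ∈ E := by
  intro q hq
  set Γ := normalizer (E : Set G) with hΓ
  have hcQ : cm q x ∈ Q := by
    have h1 := (mem_normalizer_iff''.1 hxQ q).1 hq
    have : cm q x = q⁻¹ * (x⁻¹ * q * x) := by simp only [cm]; group
    rw [this]
    exact Q.mul_mem (Q.inv_mem hq) h1
  haveI : (E.subgroupOf Γ).Normal := normal_in_normalizer
  set φ := QuotientGroup.mk' (E.subgroupOf Γ) with hφ
  set x' : Γ := ⟨x, hxE⟩ with hx'
  set q' : Γ := ⟨q, hQE hq⟩ with hq'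
  have hcm : ((cm q' x' : Γ) : G) = cm q x := rfl
  have hcomm : Commute (cm (φ q') (φ x')) (φ x') := by
    have h1 : cm (cm q' x') x' ∈ E.subgroupOf Γ := h q hq
    rw [← mk_eq_one_iff' (E.subgroupOf Γ), map_cm, map_cm] at h1
    exact (cm_eq_one_iff _ _).1 h1
  have hxo' : (φ x') ^ (orderOf x) = 1 := by
    rw [← map_pow]
    have : x' ^ orderOf x = 1 := Subtype.ext (pow_orderOf_eq_one x)
    rw [this, map_one]
  have h2 := cm_pow_eq_one hcomm hxo'
  rw [← map_cm, ← map_pow, mk_eq_one_iff'] at h2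
  have h3 : (cm q x) ^ orderOf x ∈ E := h2
  obtain ⟨k, hk⟩ := hQ ⟨cm q x, hcQ⟩
  have h4 : (cm q x) ^ (p ^ k) ∈ E := by
    have := congrArg Subtype.val hk
    simp only [SubmonoidClass.coe_pow, OneMemClass.coe_one] at this
    rw [this]; exact one_mem _
  exact pow_coprime_mem h3 h4 (hxo.pow_right k)

end

section
variable {p : ℕ} [Fact p.Prime] {G : Type*} [Group G] [Finite G]

theorem hyp_le {Q : Subgroup G} (hQ : IsPGroup p Q) {x : G}
    (hxo : Nat.Coprime (orderOf x) p) (hxQ : x ∈ normalizer (Q : Set G)) (n : ℕ) :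
    ∀ q ∈ Q, cm q x ∈ closure ((Q : Set G) ∩ vals (gam n) G) := by
  have hstep : ∀ q ∈ Q, cm q x ∈ Q := by
    intro q hq
    have h1 := (mem_normalizer_iff''.1 hxQ q).1 hq
    have : cm q x = q⁻¹ * (x⁻¹ * q * x) := by simp only [cm]; group
    rw [this]
    exact Q.mul_mem (Q.inv_mem hq) h1
  induction n with
  | zero =>
    intro q hq
    exact subset_closure ⟨hstep q hq, trivial⟩
  | succ n ih =>
    refine coprime_step hQ hxo hxQ (mem_normalizer_closure_inter _ hxQ)
      (fun g hg => mem_normalizer_closure_inter _ (le_normalizer hg)) ?_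
    intro q hq
    refine cm_mem_of_closure (S := (Q : Set G) ∩ vals (gam n) G) (T := {x}) ?_ ?_ ?_ _ (ih q hq)
      x (subset_closure rfl)
    · intro s hs
      exact mem_normalizer_closure_inter _ (le_normalizer hs.1)
    · rintro s rfl
      exact mem_normalizer_closure_inter _ hxQ
    · rintro s hs y rfl
      exact subset_closure ⟨hstep s hs.1, s, hs.2, y, trivial, rfl⟩

/-- the conjugate of a subgroup -/
def cj (h : G) (Q : Subgroup G) : Subgroup G := Q.map (MulAut.conj h⁻¹).toMonoidHom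

theorem mem_cj {h : G} {Q : Subgroup G} {x : G} : x ∈ cj h Q ↔ h * x * h⁻¹ ∈ Q := by
  constructor
  · rintro ⟨y, hy, rfl⟩
    have : h * ((MulAut.conj h⁻¹).toMonoidHom y) * h⁻¹ = y := by
      simp only [MulEquiv.toMonoidHom_eq_coe, MonoidHom.coe_coe, MulAut.conj_apply]; group
    rw [this]; exact hy
  · intro hx
    refine ⟨_, hx, ?_⟩
    simp only [MulEquiv.toMonoidHom_eq_coe, MonoidHom.coe_coe, MulAut.conj_apply]; group

theorem cj_cj (a b : G) (Q : Subgroup G) : cj b (cj a Q) = cj (a * b) Q := by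
  ext x
  rw [mem_cj, mem_cj, mem_cj]
  have : a * (b * x * b⁻¹) * a⁻¹ = a * b * x * (a * b)⁻¹ := by group
  rw [this]

theorem cj_one (Q : Subgroup G) : cj 1 Q = Q := by
  ext x; rw [mem_cj]; simp

theorem cj_mono {h : G} {Q R : Subgroup G} (hQR : Q ≤ R) : cj h Q ≤ cj h R := by
  intro x hx; rw [mem_cj] at hx ⊢; exact hQR hx

theorem card_cj (h : G) (Q : Subgroup G) : Nat.card (cj h Q) = Nat.card Q :=
  Nat.card_congr (Q.equivMapOfInjective _ (MulAut.conj h⁻¹).injective).toEquiv.symm

theorem cj_isPGroup {h : G} {Q : Subgroup G} (hQ : IsPGroup p Q) : IsPGroup p (cj h Q) := hQ.map _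

theorem cj_eq_iff_mem_normalizer {n : G} {Q : Subgroup G} :
    cj n Q = Q ↔ n ∈ normalizer (Q : Set G) := by
  rw [mem_normalizer_iff]
  constructor
  · intro h x
    have h1 : x ∈ cj n Q ↔ x ∈ Q := by rw [h]
    rw [mem_cj] at h1
    exact h1.symm
  · intro h
    ext x
    rw [mem_cj]
    exact (h x).symm

theorem cj_normalizer_le (h : G) (Q : Subgroup G) :
    cj h (normalizer (Q : Set G)) ≤ normalizer ((cj h Q : Subgroup G) : Set G) := by
  intro x hx
  rw [mem_cj] at hx
  rw [← cj_eq_iff_mem_normalizer] at hx ⊢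
  rw [cj_cj]
  have e : h * x = (h * x * h⁻¹) * h := by group
  rw [e, ← cj_cj, hx]

/-- the part of a p-subgroup -/
theorem exists_cj_le {B T K : Subgroup G} (hB : SylIn p B K) (hT : IsPGroup p T) (hTK : T ≤ K) :
    ∃ y ∈ K, cj y T ≤ B := by
  obtain ⟨B', hTB', hB'⟩ := SylIn.exists_ge (p := p) hT hTK
  obtain ⟨k, hk, hkB⟩ := hB.conj hB'
  refine ⟨k, hk, fun x hx => ?_⟩
  rw [mem_cj] at hx
  have h1 := (hkB _).1 (hTB' hx)
  have e : k⁻¹ * (k * x * k⁻¹) * k = x := by group
  rwa [e] at h1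

theorem normalizer_acts {B Qs F : Subgroup G} (hQB : Qs ≤ B) (hF1 : ⁅B, B⁆ ≤ F)
    (hF2 : ∀ Q ≤ B, ∀ x ∈ normalizer (Q : Set G), Nat.Coprime (orderOf x) p → ∀ q ∈ Q, cm q x ∈ F)
    (hS : SylIn p (B ⊓ normalizer (Qs : Set G)) (normalizer (Qs : Set G))) :
    ∀ n ∈ normalizer (Qs : Set G), ∀ q ∈ Qs, cm q n ∈ F := by
  set N := normalizer (Qs : Set G) with hN
  have hconj : ∀ a ∈ N, ∀ q ∈ Qs, a⁻¹ * q * a ∈ Qs := fun a ha q hq =>
    (mem_normalizer_iff''.1 ha q).1 hq
  have hconj' : ∀ a ∈ N, ∀ q ∈ Qs, a * q * a⁻¹ ∈ Qs := fun a ha q hq =>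
    (mem_normalizer_iff.1 ha q).1 hq
  let Z : Subgroup G :=
    { carrier := {n | n ∈ N ∧ ∀ q ∈ Qs, cm q n ∈ F}
      one_mem' := ⟨one_mem _, fun q _ => by simp [cm]⟩
      mul_mem' := by
        rintro a b ⟨ha, ha'⟩ ⟨hb, hb'⟩
        refine ⟨N.mul_mem ha hb, fun q hq => ?_⟩
        have e : cm q (a * b) = cm q a * cm (a⁻¹ * q * a) b := by simp only [cm]; group
        rw [e]
        exact F.mul_mem (ha' q hq) (hb' _ (hconj a ha q hq))
      inv_mem' := by
        rintro a ⟨ha, ha'⟩
        refine ⟨N.inv_mem ha, fun q hq => ?_⟩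
        have e : cm q a⁻¹ = (cm (a * q * a⁻¹) a)⁻¹ := by simp only [cm]; group
        rw [e]
        exact F.inv_mem (ha' _ (hconj' a ha q hq)) }
  have hZN : Z ≤ N := fun x hx => hx.1
  have hSZ : B ⊓ N ≤ Z := by
    rintro s ⟨hs1, hs2⟩
    refine ⟨hs2, fun q hq => hF1 ?_⟩
    have : ⁅q⁻¹, s⁻¹⁆ ∈ ⁅B, B⁆ :=
      commutator_mem_commutator (B.inv_mem (hQB hq)) (B.inv_mem hs1)
    simpa [cm, commutatorElement_def] using this
  have h1 : Z.relIndex N = 1 := by
    by_contra hne
    obtain ⟨r, hr, hrd⟩ := Nat.exists_prime_and_dvd hne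
    haveI : Fact r.Prime := ⟨hr⟩
    by_cases hrp : r = p
    · subst hrp
      exact hS.2.2 (hrd.trans (relIndex_dvd_of_le_left _ hSZ))
    · obtain ⟨R, -, hR⟩ := SylIn.exists_ge (p := r) (R := (⊥ : Subgroup G)) (K := N)
        IsPGroup.of_bot bot_le
      have hRZ : R ≤ Z := by
        intro x hx
        refine ⟨hR.1 hx, hF2 Qs hQB x (hR.1 hx) ?_⟩
        obtain ⟨k, hk⟩ := hR.2.1 ⟨x, hx⟩
        have hk' : x ^ (r ^ k) = 1 := by
          have := congrArg Subtype.val hk
          simpa only [SubmonoidClass.coe_pow, OneMemClass.coe_one] using this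
        have h3 : orderOf x ∣ r ^ k := orderOf_dvd_of_pow_eq_one hk'
        exact Nat.Coprime.coprime_dvd_left h3
          (Nat.Coprime.pow_left _ ((Nat.coprime_primes hr Fact.out).2 hrp))
      exact hR.2.2 (hrd.trans (relIndex_dvd_of_le_left _ hRZ))
  have h2 : N ≤ Z := relIndex_eq_one.1 h1
  intro n hn q hq
  exact (h2 hn).2 q hq

theorem lt_inf_normalizer {R B : Subgroup G} (hB : IsPGroup p B) (hRB : R ≤ B) (hne : R ≠ B) :
    Nat.card R < Nat.card (B ⊓ normalizer (R : Set G) : Subgroup G) := by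
  haveI : Group.IsNilpotent B := hB.isNilpotent
  have h1 := (Group.normalizerCondition_of_isNilpotent (G := B)) (R.subgroupOf B) (by
    rw [lt_top_iff_ne_top]
    intro h
    exact hne (le_antisymm hRB (subgroupOf_eq_top.1 h)))
  obtain ⟨y, hy, hyR⟩ := SetLike.exists_of_lt h1
  have h2 : (y : G) ∈ B ⊓ normalizer (R : Set G) := by
    refine mem_inf.2 ⟨y.2, ?_⟩
    rw [mem_normalizer_iff] at hy ⊢
    intro x
    constructor
    · intro hx
      exact (hy ⟨x, hRB hx⟩).1 hx
    · intro hx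
      have hxB : x ∈ B := by
        have h3 := B.mul_mem (B.mul_mem (B.inv_mem y.2) (hRB hx)) y.2
        have e : (y : G)⁻¹ * ((y : G) * x * (y : G)⁻¹) * y = x := by group
        rwa [e] at h3
      exact (hy ⟨x, hxB⟩).2 hx
  have hle : R ≤ B ⊓ normalizer (R : Set G) := le_inf hRB le_normalizer
  refine lt_of_le_of_ne (card_le_of_le hle) (fun h => ?_)
  have h3 := eq_of_le_of_card_ge hle h.ge
  rw [← h3] at h2
  exact hyR h2

theorem alperin {B F : Subgroup G} (hB : SylIn p B ⊤) (hF1 : ⁅B, B⁆ ≤ F)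
    (hF2 : ∀ Q ≤ B, ∀ x ∈ normalizer (Q : Set G), Nat.Coprime (orderOf x) p →
      ∀ q ∈ Q, cm q x ∈ F) :
    ∀ m : ℕ, ∀ Q ≤ B, Nat.card B - Nat.card Q = m → ∀ g : G, cj g Q ≤ B →
      ∀ q ∈ Q, cm q g ∈ F := by
  intro m
  induction m using Nat.strong_induction_on with
  | _ m ih =>
    intro Q hQB hm g hg
    by_cases hQ : Q = B
    · -- the top case
      subst hQ
      have h1 : cj g Q = Q := eq_of_le_of_card_ge hg (card_cj g Q).ge
      rw [cj_eq_iff_mem_normalizer] at h1
      refine normalizer_acts le_rfl hF1 hF2 ?_ g h1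
      rw [inf_of_le_left le_normalizer]
      exact hB.mono le_normalizer le_top
    · have hcardQ : Nat.card Q < Nat.card B :=
        lt_of_le_of_ne (card_le_of_le hQB) (fun h => hQ (eq_of_le_of_card_ge hQB h.ge))
      -- choose a fully normalised conjugate
      obtain ⟨h0, hh0, hmax⟩ := Set.Finite.exists_maximalFor
        (fun h : G => Nat.card (B ⊓ normalizer ((cj h Q : Subgroup G) : Set G) : Subgroup G))
        {h : G | cj h Q ≤ B} (Set.toFinite _) ⟨g, hg⟩
      set Qs := cj h0 Q with hQs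
      have hQsB : Qs ≤ B := hh0
      obtain ⟨T, hTle, hT⟩ := SylIn.exists_ge (p := p)
        (R := B ⊓ normalizer (Qs : Set G)) (K := normalizer (Qs : Set G))
        (hB.2.1.to_le inf_le_left) inf_le_right
      have hST : SylIn p (B ⊓ normalizer (Qs : Set G)) (normalizer (Qs : Set G)) := by
        obtain ⟨y, -, hy⟩ := exists_cj_le hB hT.2.1 le_top
        have h1 : Qs ≤ T := (le_inf hQsB le_normalizer).trans hTle
        have h2 : cj (h0 * y) Q ≤ B := by
          rw [← cj_cj]; exact (cj_mono h1).trans hy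
        have h3 : cj y T ≤ B ⊓ normalizer ((cj (h0 * y) Q : Subgroup G) : Set G) := by
          refine le_inf hy ?_
          rw [← cj_cj]
          exact (cj_mono hT.1).trans (cj_normalizer_le y _)
        have h4 : Nat.card T ≤ Nat.card (B ⊓ normalizer ((cj (h0 * y) Q : Subgroup G) : Set G) :
            Subgroup G) := by
          rw [← card_cj y T]; exact card_le_of_le h3
        have h5 : Nat.card (B ⊓ normalizer (Qs : Set G) : Subgroup G) ≤
            Nat.card (B ⊓ normalizer ((cj (h0 * y) Q : Subgroup G) : Set G) : Subgroup G) :=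
          (card_le_of_le hTle).trans h4
        have h6 := hmax h2 h5
        have h7 : B ⊓ normalizer (Qs : Set G) = T := eq_of_le_of_card_ge hTle (h4.trans h6)
        rw [h7]; exact hT
      -- Claim 1
      have claim1 : ∀ s : G, cj s Q ≤ B → ∃ h : G, cj h (cj s Q) = Qs ∧
          ∀ q ∈ cj s Q, cm q h ∈ F := by
        intro s hs
        set R := cj s Q with hR
        have hRne : R ≠ B := by
          intro h
          have := card_cj s Q
          rw [← hR, h] at this
          exact hcardQ.ne this.symm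
        set y := s⁻¹ * h0 with hy
        have hyR : cj y R = Qs := by
          rw [hR, cj_cj, hy, hQs]; congr 1; group
        have h1 : cj y (B ⊓ normalizer (R : Set G)) ≤ normalizer (Qs : Set G) := by
          rw [← hyR]
          exact (cj_mono inf_le_right).trans (cj_normalizer_le y _)
        obtain ⟨n, hn, hnB⟩ := exists_cj_le hST
          (cj_isPGroup (h := y) (hB.2.1.to_le (inf_le_left : B ⊓ normalizer (R : Set G) ≤ B))) h1
        refine ⟨y * n, ?_, ?_⟩
        · rw [← cj_cj, hyR, cj_eq_iff_mem_normalizer]; exact hn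
        · have h2 := lt_inf_normalizer hB.2.1 hs hRne
          have h3 : Nat.card (B ⊓ normalizer (R : Set G) : Subgroup G) ≤ Nat.card B :=
            card_le_of_le inf_le_left
          rw [hR, card_cj, ← hR] at h2
          have h4 := ih (Nat.card B - Nat.card (B ⊓ normalizer (R : Set G) : Subgroup G))
            (by omega) (B ⊓ normalizer (R : Set G)) inf_le_left rfl (y * n) (by
              rw [← cj_cj]; exact hnB.trans inf_le_left)
          intro q hq
          exact h4 q ⟨hs hq, le_normalizer hq⟩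
      obtain ⟨h1, hh1, hc1⟩ := claim1 1 (by rw [cj_one]; exact hQB)
      obtain ⟨h2, hh2, hc2⟩ := claim1 g hg
      rw [cj_one] at hh1 hc1
      have hn : h1⁻¹ * g * h2 ∈ normalizer (Qs : Set G) := by
        rw [← cj_eq_iff_mem_normalizer]
        rw [← cj_cj, ← cj_cj]
        have e : cj h1⁻¹ Qs = Q := by
          rw [← hh1, cj_cj, mul_inv_cancel, cj_one]
        rw [e, hh2]
      have hc3 := normalizer_acts hQsB hF1 hF2 hST _ hn
      intro q hq
      have e1 : h1⁻¹ * q * h1 ∈ Qs := by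
        rw [← hh1, mem_cj]
        have : h1 * (h1⁻¹ * q * h1) * h1⁻¹ = q := by group
        rwa [this]
      have e2 := hc3 _ e1
      have e3 := hc1 q hq
      have e4 : g⁻¹ * q * g ∈ cj g Q := by
        rw [mem_cj]
        have : g * (g⁻¹ * q * g) * g⁻¹ = q := by group
        rwa [this]
      have e5 := hc2 _ e4
      have e6 : cm q g = cm q h1 * cm (h1⁻¹ * q * h1) (h1⁻¹ * g * h2) *
          (cm (g⁻¹ * q * g) h2)⁻¹ := by
        simp only [cm]; group
      rw [e6]
      exact F.mul_mem (F.mul_mem e3 e2) (F.inv_mem e5)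

theorem gam_perfect (hG : commutator G = ⊤) (n : ℕ) : A p (gam n) G := by
  intro B hB
  set E := closure ((B : Set G) ∩ vals (gam n) G) with hE
  set F := ⁅B, B⁆ ⊔ E with hF
  have hF2 : ∀ Q ≤ B, ∀ x ∈ normalizer (Q : Set G), Nat.Coprime (orderOf x) p →
      ∀ q ∈ Q, cm q x ∈ F := by
    intro Q hQ x hx hxo q hq
    have h1 := hyp_le (hB.2.1.to_le hQ) hxo hx n q hq
    refine le_sup_right (a := ⁅B, B⁆) ((Subgroup.closure_mono ?_) h1)
    rintro y ⟨hy1, hy2⟩
    exact ⟨hQ hy1, hy2⟩
  have hal := alperin hB (F := F) le_sup_left hF2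
  obtain ⟨P, hP⟩ := hB.exists_sylow
  have hfoc := commutator_inf_eq_focalSubgroup P
  rw [hG, top_inf_eq] at hfoc
  have hBF : B ≤ F := by
    rw [← hP, hfoc, focalSubgroup_def, closure_le]
    rintro _ ⟨hg, x, hx, u, rfl⟩
    have hxB : x ∈ B := by rw [← hP]; exact hx
    have hgB : ⁅x, u⁆ ∈ B := by rw [← hP]; exact hg
    have h1 : u * x⁻¹ * u⁻¹ ∈ B := by
      have := B.mul_mem (B.inv_mem hxB) hgB
      have e : x⁻¹ * ⁅x, u⁆ = u * x⁻¹ * u⁻¹ := by rw [commutatorElement_def]; group
      rwa [e] at this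
    have h2 : cj u⁻¹ (zpowers x⁻¹) ≤ B := by
      intro y hy
      rw [mem_cj, mem_zpowers_iff] at hy
      obtain ⟨k, hk⟩ := hy
      have e : y = (u * x⁻¹ * u⁻¹) ^ k := by
        rw [conj_zpow, hk]; group
      rw [e]
      exact zpow_mem h1 k
    have h3 := hal _ (zpowers x⁻¹) (by
      rw [zpowers_le]; exact B.inv_mem hxB) rfl u⁻¹ h2 x⁻¹ (mem_zpowers _)
    have e : cm x⁻¹ u⁻¹ = ⁅x, u⁆ := by simp only [cm, commutatorElement_def]; group
    rwa [e] at h3
  -- B is generated by E modulo its commutator subgroup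
  have hEB : E ≤ B := by rw [hE, closure_le]; exact Set.inter_subset_left
  have hEn : (E.subgroupOf B).Normal := by
    rw [normal_subgroupOf_iff_le_normalizer hEB]
    intro g hg
    exact mem_normalizer_closure_inter _ (le_normalizer hg)
  haveI := hEn
  haveI : Group.IsNilpotent B := hB.2.1.isNilpotent
  haveI : Group.IsSolvable (⊤ : Subgroup B) := inferInstance
  have h1 : (⊤ : Subgroup B) ≤ ⁅(⊤ : Subgroup B), (⊤ : Subgroup B)⁆ ⊔ E.subgroupOf B := by
    have h2 : (⁅(⊤ : Subgroup B), (⊤ : Subgroup B)⁆ ⊔ E.subgroupOf B).map B.subtype = F := by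
      rw [Subgroup.map_sup, map_subgroupOf_eq_of_le hEB]
      have := map_subtype_commutator B
      rw [hF]
      congr 1
    intro y _
    have h3 : (y : G) ∈ F := hBF y.2
    rw [← h2] at h3
    obtain ⟨z, hz, hzy⟩ := h3
    have : z = y := Subtype.ext hzy
    rwa [this] at hz
  have h2 := solvable_le_of_perfect h1
  rintro x ⟨hx, -⟩
  exact h2 (mem_top (⟨x, hx⟩ : B))

end

/-- Lower central words: all finite groups. -/
theorem gam_all (p : ℕ) [Fact p.Prime] (n : ℕ) (G : Type u) [Group G] [Finite G] :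
    A p (gam n) G := by
  refine main_class p (fun _ _ => True) (fun _ _ _ _ => trivial) (fun _ _ _ _ _ => trivial)
    (fun t => ∃ n, t = gam n) ?_ ?_ (gam n) ⟨n, rfl⟩ G trivial
  · rintro u v ⟨n, hn⟩
    cases n with
    | zero => cases hn
    | succ n =>
      simp only [gam, Tree.comm.injEq] at hn
      exact ⟨⟨n, hn.1⟩, ⟨0, hn.2⟩⟩
  · rintro G _ _ _ hG _ _ _ t ⟨n, rfl⟩
    exact gam_perfect hG n

/-- Soluble groups: all words. -/
theorem solvable_all (p : ℕ) [Fact p.Prime] (t : Tree) (G : Type u) [Group G] [Finite G]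
    (hG : Group.IsSolvable G) : A p t G := by
  refine main_class p (fun G _ => Group.IsSolvable G) (fun _ _ _ _ => inferInstance)
    (fun _ _ _ _ _ => inferInstance) (fun _ => True) (fun _ _ _ => ⟨trivial, trivial⟩) ?_ t trivial
    G hG
  intro G _ _ hs hG hp hf _ t _
  exfalso
  have : Nontrivial G := by
    by_contra hcon
    rw [not_nontrivial_iff_subsingleton] at hcon
    have h1 : Nat.card G = 1 := Nat.card_unique
    rw [h1, Nat.dvd_one] at hp
    exact (Fact.out : p.Prime).one_lt.ne' hp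
  exact (Group.IsSolvable.commutator_lt_top_of_nontrivial G).ne hG

end MP_8aaf67
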