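import Pool.Agent.Work.MP_8aaf67_al.Red

/-!
# Minimal normal subgroups
-/

open Subgroup

set_option linter.unusedSectionVars false
set_option linter.style.haveILetI false

namespace MP_8aaf67

/-- V is a minimal normal subgroup. -/
def MinNormal {G : Type*} [Group G] (V : Subgroup G) : Prop :=
  V.Normal ∧ V ≠ ⊥ ∧ ∀ N : Subgroup G, N.Normal → N ≤ V → N = ⊥ ∨ N = V

/-- V and U commute elementwise. -/
def Cz {G : Type*} [Group G] (V U : Subgroup G) : Prop := ∀ x ∈ V, ∀ y ∈ U, cm x y = 1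

section
variable {G : Type*} [Group G]

theorem exists_minNormal [Finite G] {T : Subgroup G} (hT : T.Normal) (h : T ≠ ⊥) :
    ∃ V : Subgroup G, MinNormal V ∧ V ≤ T := by
  classical
  have hfin : (Set.univ : Set (Subgroup G)).Finite := Set.finite_univ
  obtain ⟨V, hV, hmin⟩ := Set.Finite.exists_minimalFor (fun V : Subgroup G => Nat.card V)
    {V : Subgroup G | V.Normal ∧ V ≠ ⊥ ∧ V ≤ T} (Set.toFinite _) ⟨T, hT, h, le_rfl⟩
  refine ⟨V, ⟨hV.1, hV.2.1, fun N hN hNV => ?_⟩, hV.2.2⟩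
  by_cases hN0 : N = ⊥
  · exact Or.inl hN0
  · right
    have h1 := hmin ⟨hN, hN0, hNV.trans hV.2.2⟩ (card_le_of_le hNV)
    exact eq_of_le_of_card_ge hNV h1

theorem closure_inter_vals_normal {V : Subgroup G} (hV : V.Normal) (t : Tree) :
    (closure ((V : Set G) ∩ vals t G)).Normal := by
  refine ⟨fun n hn g => ?_⟩
  have h1 : g * n * g⁻¹ ∈ (closure ((V : Set G) ∩ vals t G)).map (MulAut.conj g).toMonoidHom :=
    ⟨n, hn, by simp⟩
  rw [MonoidHom.map_closure] at h1
  refine Subgroup.closure_mono ?_ h1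
  rintro _ ⟨y, ⟨hyB, hyv⟩, rfl⟩
  exact ⟨by simpa using hV.conj_mem y hyB g, conj_mem_vals t g hyv⟩

theorem closure_inter_vals_le {V : Subgroup G} (t : Tree) :
    closure ((V : Set G) ∩ vals t G) ≤ V := by
  rw [closure_le]; exact Set.inter_subset_left

theorem MinNormal.closure_eq {V : Subgroup G} (hV : MinNormal V) (t : Tree)
    (h : ∃ x ∈ V, x ∈ vals t G ∧ x ≠ 1) : closure ((V : Set G) ∩ vals t G) = V := by
  rcases hV.2.2 _ (closure_inter_vals_normal hV.1 t) (closure_inter_vals_le t) with h1 | h1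
  · exfalso
    obtain ⟨x, hx, hxv, hx1⟩ := h
    have : x ∈ closure ((V : Set G) ∩ vals t G) := subset_closure ⟨hx, hxv⟩
    rw [h1] at this
    exact hx1 (mem_bot.1 this)
  · exact h1

theorem cz_of_closure {S T : Set G} (h : ∀ s ∈ S, ∀ t ∈ T, cm s t = 1) :
    Cz (closure S) (closure T) := by
  intro x hx y hy
  have := cm_mem_of_closure (S := S) (T := T) (N := ⊥)
    (fun s _ => by rw [normalizer_eq_top]; trivial)
    (fun s _ => by rw [normalizer_eq_top]; trivial)
    (fun s hs t ht => mem_bot.2 (h s hs t ht)) x hx y hy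
  exact mem_bot.1 this

theorem Cz.mono {V U V' U' : Subgroup G} (h : Cz V U) (h1 : V' ≤ V) (h2 : U' ≤ U) : Cz V' U' :=
  fun x hx y hy => h x (h1 hx) y (h2 hy)

theorem Cz.symm {V U : Subgroup G} (h : Cz V U) : Cz U V := by
  intro x hx y hy
  rw [cm_eq_one_iff]
  exact ((cm_eq_one_iff _ _).1 (h y hy x hx)).symm

theorem exists_value_of_not_cz {V : Subgroup G} (hV : MinNormal V) (t : Tree)
    (h : ¬ Cz V (verb t G)) : ∃ x ∈ V, x ∈ vals t G ∧ x ≠ 1 := by
  induction t with
  | var =>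
    by_contra hcon
    push Not at hcon
    apply hV.2.1
    rw [eq_bot_iff]
    intro x hx
    exact mem_bot.2 (hcon x hx trivial)
  | comm u v hu hv =>
    have h1 : ¬ Cz V (verb u G) := fun hc => h (hc.mono le_rfl (verb_comm_le_left u v))
    have h2 : ¬ Cz V (verb v G) := fun hc => h (hc.mono le_rfl (verb_comm_le_right u v))
    have h3 := hV.closure_eq u (hu h1)
    by_contra hcon
    push Not at hcon
    apply h2
    rw [← h3]
    refine cz_of_closure (fun a ha b hb => ?_)
    haveI := hV.1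
    exact hcon _ (cm_mem_of_normal_left ha.1 b) ⟨a, ha.2, b, hb, rfl⟩

end

section
variable {p : ℕ} [Fact p.Prime] {G : Type*} [Group G] [Finite G]

theorem fratt_arg {A0 W : Subgroup G} [W.Normal] (h : SylIn p A0 W) :
    normalizer (A0 : Set G) ⊔ W = ⊤ := by
  obtain ⟨Q, hQ⟩ := h.exists_sylow_sub
  have h1 := Sylow.normalizer_sup_eq_top Q
  have h2 : (Q : Subgroup W).map W.subtype = A0 := by
    rw [hQ, map_subgroupOf_eq_of_le h.1]
  rw [← h2]
  exact h1

theorem mem_normalizer_closure_inter {A0 : Subgroup G} (t : Tree) {g : G}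
    (hg : g ∈ normalizer (A0 : Set G)) :
    g ∈ normalizer ((closure ((A0 : Set G) ∩ vals t G) : Subgroup G) : Set G) := by
  have key : ∀ g ∈ normalizer (A0 : Set G), ∀ n ∈ closure ((A0 : Set G) ∩ vals t G),
      g * n * g⁻¹ ∈ closure ((A0 : Set G) ∩ vals t G) := by
    intro g hg n hn
    have h1 : g * n * g⁻¹ ∈ (closure ((A0 : Set G) ∩ vals t G)).map (MulAut.conj g).toMonoidHom :=
      ⟨n, hn, by simp⟩
    rw [MonoidHom.map_closure] at h1
    refine Subgroup.closure_mono ?_ h1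
    rintro _ ⟨y, ⟨hyB, hyv⟩, rfl⟩
    exact ⟨by simpa using (mem_normalizer_iff.1 hg y).1 hyB, conj_mem_vals t g hyv⟩
  rw [mem_normalizer_iff]
  intro n
  constructor
  · exact key g hg n
  · intro hn
    have h1 := key g⁻¹ (inv_mem hg) _ hn
    have e : g⁻¹ * (g * n * g⁻¹) * g⁻¹⁻¹ = n := by group
    rwa [e] at h1

theorem stepV_left {u v : Tree} (hv : A p v G) {V : Subgroup G}
    (hV : MinNormal V) (hVp : IsPGroup p V) (hVK : V ≤ verb (Tree.comm u v) G)
    {B : Subgroup G} (hB : SylIn p B ⊤) (h1 : ¬ Cz V (verb u G)) (h2 : Cz V (verb v G)) :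
    V ≤ closure ((B : Set G) ∩ vals (Tree.comm u v) G) := by
  haveI := hV.1
  set W := verb v G with hW
  set A0 := B ⊓ W with hA0
  have hA0s : SylIn p A0 W := hB.inf_normal le_top
  set Y := normalizer (A0 : Set G) with hY
  have hYW : Y ⊔ W = ⊤ := fratt_arg hA0s
  have hU := verb_le_KI_sup u W Y hYW
  set H0 := closure ((A0 : Set G) ∩ vals (Tree.comm u v) G) with hH0
  have hH0le : H0 ≤ closure ((B : Set G) ∩ vals (Tree.comm u v) G) :=
    Subgroup.closure_mono (fun x hx => ⟨hx.1.1, hx.2⟩)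
  have hVB : V ≤ B := normal_pGroup_le hVp le_top hB
  have hVA0 : V ≤ A0 := le_inf hVB (hVK.trans (verb_comm_le_right u v))
  have hA0cl : A0 ≤ closure ((A0 : Set G) ∩ vals v G) := by
    refine (hv B hB).trans (Subgroup.closure_mono ?_)
    rintro x ⟨hx1, hx2⟩
    exact ⟨⟨hx1, vals_subset_verb v hx2⟩, hx2⟩
  have hkey : ∀ g ∈ KI u Y, ∀ a ∈ A0, cm g a ∈ H0 := by
    intro g hg a ha
    rw [KI_eq] at hg
    refine cm_mem_of_closure (S := VI u Y) (T := (A0 : Set G) ∩ vals v G) (N := H0)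
      ?_ ?_ ?_ g hg a (hA0cl ha)
    · intro s hs
      exact mem_normalizer_closure_inter _ (VI_subset_self u Y hs)
    · intro s hs
      exact mem_normalizer_closure_inter _ (le_normalizer hs.1)
    · intro s hs t ht
      refine subset_closure ⟨?_, s, VI_subset u Y hs, t, ht.2, rfl⟩
      have hsY := VI_subset_self u Y hs
      have h3 : s⁻¹ * t⁻¹ * s ∈ A0 := (mem_normalizer_iff''.1 hsY t⁻¹).1 (A0.inv_mem ht.1)
      have : cm s t = (s⁻¹ * t⁻¹ * s) * t := rfl
      rw [SetLike.mem_coe, this]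
      exact A0.mul_mem h3 ht.1
  -- the subgroup generated by the commutators
  set D := closure {x | ∃ g ∈ verb u G, ∃ z ∈ V, cm g z = x} with hD
  have hDn : D.Normal := by
    refine ⟨fun n hn g => ?_⟩
    have h4 : g * n * g⁻¹ ∈ D.map (MulAut.conj g).toMonoidHom := ⟨n, hn, by simp⟩
    rw [hD, MonoidHom.map_closure] at h4
    refine Subgroup.closure_mono ?_ h4
    rintro _ ⟨y, ⟨x, hx, z, hz, rfl⟩, rfl⟩
    refine ⟨g * x * g⁻¹, (verb_normal (G := G) u).conj_mem x hx g, g * z * g⁻¹,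
      hV.1.conj_mem z hz g, ?_⟩
    rw [map_cm]
    simp
  have hDV : D ≤ V := by
    rw [hD, closure_le]
    rintro _ ⟨g, hg, z, hz, rfl⟩
    exact cm_mem_of_normal_right g hz
  have hDH : D ≤ H0 := by
    rw [hD, closure_le]
    rintro _ ⟨g, hg, z, hz, rfl⟩
    obtain ⟨g', hg', w, hw, rfl⟩ := mem_sup_of_normal_right.1 (hU hg)
    have h5 : g'⁻¹ * z⁻¹ * g' ∈ V := by
      have := hV.1.conj_mem z⁻¹ (V.inv_mem hz) g'⁻¹
      simpa using this
    have h6 := (cm_eq_one_iff _ _).1 (h2 _ h5 w hw)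
    have e : cm (g' * w) z = cm g' z := by
      have : cm (g' * w) z = w⁻¹ * (g'⁻¹ * z⁻¹ * g' * w) * z := by simp only [cm]; group
      rw [this, h6]
      simp only [cm]; group
    rw [SetLike.mem_coe, e]
    exact hkey g' hg' z (hVA0 hz)
  rcases hV.2.2 D hDn hDV with h3 | h3
  · exfalso
    apply h1
    refine Cz.symm ?_
    intro x hx y hy
    have : cm x y ∈ D := subset_closure ⟨x, hx, y, hy, rfl⟩
    rw [h3] at this
    exact mem_bot.1 this
  · rw [← h3]
    exact hDH.trans hH0le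

theorem stepV_right {u v : Tree} (hu : A p u G) {V : Subgroup G}
    (hV : MinNormal V) (hVp : IsPGroup p V) (hVK : V ≤ verb (Tree.comm u v) G)
    {B : Subgroup G} (hB : SylIn p B ⊤) (h1 : ¬ Cz V (verb v G)) (h2 : Cz V (verb u G)) :
    V ≤ closure ((B : Set G) ∩ vals (Tree.comm u v) G) := by
  haveI := hV.1
  set W := verb u G with hW
  set A0 := B ⊓ W with hA0
  have hA0s : SylIn p A0 W := hB.inf_normal le_top
  set Y := normalizer (A0 : Set G) with hY
  have hYW : Y ⊔ W = ⊤ := fratt_arg hA0s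
  have hU := verb_le_KI_sup v W Y hYW
  set H0 := closure ((A0 : Set G) ∩ vals (Tree.comm u v) G) with hH0
  have hH0le : H0 ≤ closure ((B : Set G) ∩ vals (Tree.comm u v) G) :=
    Subgroup.closure_mono (fun x hx => ⟨hx.1.1, hx.2⟩)
  have hVB : V ≤ B := normal_pGroup_le hVp le_top hB
  have hVA0 : V ≤ A0 := le_inf hVB (hVK.trans (verb_comm_le_left u v))
  have hA0cl : A0 ≤ closure ((A0 : Set G) ∩ vals u G) := by
    refine (hu B hB).trans (Subgroup.closure_mono ?_)
    rintro x ⟨hx1, hx2⟩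
    exact ⟨⟨hx1, vals_subset_verb u hx2⟩, hx2⟩
  have hkey : ∀ a ∈ A0, ∀ g ∈ KI v Y, cm a g ∈ H0 := by
    intro a ha g hg
    rw [KI_eq] at hg
    refine cm_mem_of_closure (S := (A0 : Set G) ∩ vals u G) (T := VI v Y) (N := H0)
      ?_ ?_ ?_ a (hA0cl ha) g hg
    · intro s hs
      exact mem_normalizer_closure_inter _ (le_normalizer hs.1)
    · intro s hs
      exact mem_normalizer_closure_inter _ (VI_subset_self v Y hs)
    · intro s hs t ht
      refine subset_closure ⟨?_, s, hs.2, t, VI_subset v Y ht, rfl⟩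
      have htY := VI_subset_self v Y ht
      have h3 : t⁻¹ * s * t ∈ A0 := (mem_normalizer_iff''.1 htY s).1 hs.1
      have : cm s t = s⁻¹ * (t⁻¹ * s * t) := by simp only [cm]; group
      rw [SetLike.mem_coe, this]
      exact A0.mul_mem (A0.inv_mem hs.1) h3
  -- the subgroup generated by the commutators
  set D := closure {x | ∃ z ∈ V, ∃ g ∈ verb v G, cm z g = x} with hD
  have hDn : D.Normal := by
    refine ⟨fun n hn g => ?_⟩
    have h4 : g * n * g⁻¹ ∈ D.map (MulAut.conj g).toMonoidHom := ⟨n, hn, by simp⟩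
    rw [hD, MonoidHom.map_closure] at h4
    refine Subgroup.closure_mono ?_ h4
    rintro _ ⟨y, ⟨z, hz, x, hx, rfl⟩, rfl⟩
    refine ⟨g * z * g⁻¹, hV.1.conj_mem z hz g, g * x * g⁻¹,
      (verb_normal (G := G) v).conj_mem x hx g, ?_⟩
    rw [map_cm]
    simp
  have hDV : D ≤ V := by
    rw [hD, closure_le]
    rintro _ ⟨z, hz, g, hg, rfl⟩
    exact cm_mem_of_normal_left hz g
  have hDH : D ≤ H0 := by
    rw [hD, closure_le]
    rintro _ ⟨z, hz, g, hg, rfl⟩
    obtain ⟨g', hg', w, hw, rfl⟩ := mem_sup_of_normal_right.1 (hU hg)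
    have h5 : g'⁻¹ * z * g' ∈ V := by
      have := hV.1.conj_mem z hz g'⁻¹
      simpa using this
    have h6 := (cm_eq_one_iff _ _).1 (h2 _ h5 w hw)
    have e : cm z (g' * w) = cm z g' := by
      have : cm z (g' * w) = z⁻¹ * (w⁻¹ * (g'⁻¹ * z * g' * w)) := by simp only [cm]; group
      rw [this, h6]
      simp only [cm]; group
    rw [SetLike.mem_coe, e]
    exact hkey z (hVA0 hz) g' hg'
  rcases hV.2.2 D hDn hDV with h3 | h3
  · exfalso
    apply h1
    intro x hx y hy
    have : cm x y ∈ D := subset_closure ⟨x, hx, y, hy, rfl⟩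
    rw [h3] at this
    exact mem_bot.1 this
  · rw [← h3]
    exact hDH.trans hH0le

/-- Step (3): a minimal normal p-subgroup of G inside the verbal subgroup is generated by
values lying in B, unless it is centralised by both verbal subgroups of the subwords. -/
theorem stepV {u v : Tree} (hu : A p u G) (hv : A p v G) {V : Subgroup G}
    (hV : MinNormal V) (hVp : IsPGroup p V) (hVK : V ≤ verb (Tree.comm u v) G)
    {B : Subgroup G} (hB : SylIn p B ⊤) (h : ¬ (Cz V (verb u G) ∧ Cz V (verb v G))) :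
    V ≤ closure ((B : Set G) ∩ vals (Tree.comm u v) G) := by
  haveI := hV.1
  have hVB : V ≤ B := normal_pGroup_le hVp le_top hB
  by_cases hex : ∃ x ∈ V, x ∈ vals (Tree.comm u v) G ∧ x ≠ 1
  · have e := hV.closure_eq _ hex
    intro x hx
    rw [← e] at hx
    refine (Subgroup.closure_mono ?_) hx
    intro y hy
    exact ⟨hVB hy.1, hy.2⟩
  · push Not at hex
    by_cases h1 : Cz V (verb u G)
    · have h2 : ¬ Cz V (verb v G) := fun h2 => h ⟨h1, h2⟩
      exact stepV_right hu hV hVp hVK hB h2 h1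
    · have h3 := hV.closure_eq u (exists_value_of_not_cz hV u h1)
      have h2 : Cz V (verb v G) := by
        rw [← h3]
        refine cz_of_closure (fun a ha b hb => ?_)
        exact hex _ (cm_mem_of_normal_left ha.1 b) ⟨a, ha.2, b, hb, rfl⟩
      exact stepV_left hv hV hVp hVK hB h1 h2

end

end MP_8aaf67
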