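import Pool.Agent.Work.MP_8aaf67_al.Sol

/-!
# The perfect case
-/

open Subgroup
open scoped commutatorElement Pointwise

set_option linter.unusedSectionVars false
set_option linter.style.haveILetI false

namespace MP_8aaf67

section
variable {p : ℕ} [Fact p.Prime] {G : Type*} [Group G] [Finite G]

/-- In a minimal counterexample no minimal normal p-subgroup lies in the commutator subgroup
of the verbal subgroup. -/
theorem no_minNormal {u v : Tree} (hu : A p u G) (hv : A p v G)
    (hQ : ∀ (N : Subgroup G) [N.Normal], N ≠ ⊥ → A p (Tree.comm u v) (G ⧸ N))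
    (hA : ¬ A p (Tree.comm u v) G) {V : Subgroup G} (hV : MinNormal V) (hVp : IsPGroup p V)
    (hVK : V ≤ verb (Tree.comm u v) G) :
    ¬ V ≤ ⁅verb (Tree.comm u v) G, verb (Tree.comm u v) G⁆ := by
  set t := Tree.comm u v with ht
  set K := verb t G with hK
  haveI hKn : K.Normal := verb_normal t
  obtain ⟨B, -, hB⟩ := SylIn.exists_ge (p := p) (R := (⊥ : Subgroup G)) (K := (⊤ : Subgroup G))
    IsPGroup.of_bot bot_le
  set H := closure ((B : Set G) ∩ vals t G) with hH
  have hHK : H ≤ K := Subgroup.closure_mono Set.inter_subset_right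
  have hHB : H ≤ B := by rw [hH, closure_le]; exact Set.inter_subset_left
  have hnot : ¬ (B ⊓ K ≤ H) := fun h => hA (A_of_one ⟨B, hB, h⟩)
  have S3 : ∀ V : Subgroup G, V.Normal → V ≠ ⊥ → IsPGroup p V → B ⊓ K ≤ H ⊔ (V ⊓ K) := by
    intro V hV hV1 hVp
    exact A_quot hVp (hQ V hV1) hB
  have S3' : ∀ V : Subgroup G, V.Normal → V ≠ ⊥ → IsPGroup p V → V ≤ K → B ⊓ K ≤ H ⊔ V := by
    intro V hV hV1 hVp hVK
    exact (S3 V hV hV1 hVp).trans (sup_le_sup_left inf_le_left _)
  have S4 : ∀ V : Subgroup G, MinNormal V → IsPGroup p V → V ≤ K → ¬ V ≤ H := by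
    intro V hV hVp hVK hVH
    exact hnot ((S3' V hV.1 hV.2.1 hVp hVK).trans (sup_le le_rfl hVH))
  have S4c : ∀ V : Subgroup G, MinNormal V → IsPGroup p V → V ≤ K →
      Cz V (verb u G) ∧ Cz V (verb v G) := by
    intro V hV hVp hVK
    by_contra hc
    exact S4 V hV hVp hVK (stepV hu hv hV hVp hVK hB hc)
  have hPK : SylIn p (B ⊓ K) K := hB.inf_normal le_top
  intro hVK'
  have hVc : Cz V K := (S4c V hV hVp hVK).1.mono le_rfl (verb_comm_le_left u v)
  haveI := hV.1
  have hVB : V ≤ B := normal_pGroup_le hVp le_top hB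
  apply S4 V hV hVp hVK
  have h1 : ⁅B ⊓ K, B ⊓ K⁆ ≤ H :=
    (commutator_mono (S3' V hV.1 hV.2.1 hVp hVK) (S3' V hV.1 hV.2.1 hVp hVK)).trans
      (commutator_le_of_central hVc hHK hVK)
  refine le_trans ?_ h1
  intro z hz
  -- transfer in the group K
  have hzK : z ∈ K := hVK hz
  have h2 : (⟨z, hzK⟩ : K) ∈ commutator K := by
    have h3 : z ∈ (commutator K).map K.subtype := by
      rw [map_subtype_commutator]; exact hVK' hz
    obtain ⟨y, hy, hyz⟩ := h3
    have : y = ⟨z, hzK⟩ := Subtype.ext hyz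
    rwa [this] at hy
  have h4 : (⟨z, hzK⟩ : K) ∈ ⁅(B ⊓ K).subgroupOf K, (B ⊓ K).subgroupOf K⁆ := by
    refine central_mem_commutator (p := p) ?_ hPK.2.2 ?_ ?_ h2
    · exact hPK.2.1.comap_subtype
    · exact ⟨hVB hz, hzK⟩
    · rw [mem_center_iff]
      intro g
      exact Subtype.ext ((cm_eq_one_iff _ _).1 (hVc z hz g g.2)).symm
  have h5 : K.subtype ⟨z, hzK⟩ ∈
      (⁅(B ⊓ K).subgroupOf K, (B ⊓ K).subgroupOf K⁆).map K.subtype := ⟨_, h4, rfl⟩
  rw [map_commutator, map_subgroupOf_eq_of_le hPK.1] at h5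
  exact h5

theorem KI_perfect {t : Tree} {R : Subgroup G} (hR : commutator R = ⊤) : KI t R = R := by
  rw [KI, verb_perfect hR t, ← MonoidHom.range_eq_map, range_subtype]

theorem exists_not_normal_sylow {R : Subgroup G} (hR : commutator R = ⊤) (hR0 : R ≠ ⊥) :
    ∃ (r : ℕ) (_ : Fact r.Prime) (S : Subgroup G), SylIn r S R ∧ ¬ S.Normal := by
  by_contra hcon
  push Not at hcon
  have h1 : ∀ (r : ℕ) (_ : Fact r.Prime) (P : Sylow r R), (P : Subgroup R).Normal := by
    intro r hr P
    have h2 := hcon r hr _ (SylIn.of_sylow_sub P)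
    exact h2.of_map_subtype
  have h3 : Group.IsNilpotent R := ((Group.isNilpotent_of_finite_tfae (G := R)).out 0 3).2 h1
  haveI : Nontrivial R := (nontrivial_iff_ne_bot R).2 hR0
  have h4 := Group.IsSolvable.commutator_lt_top_of_nontrivial R
  exact h4.ne hR

/-- A proper nontrivial perfect normal subgroup. -/
theorem perfect_normal_case {t : Tree} (hY : ∀ Y : Subgroup G, Y ≠ ⊤ → A p t Y)
    {R : Subgroup G} [R.Normal] (hR : commutator R = ⊤) (hR0 : R ≠ ⊥) (hR1 : R ≠ ⊤) :
    A p t G := by
  obtain ⟨r, hr, S, hS, hSn⟩ := exists_not_normal_sylow hR hR0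
  set N := normalizer (S : Set G) with hN
  have hN1 : N ≠ ⊤ := fun h => hSn (normalizer_eq_top_iff.1 h)
  have hNR : N ⊔ R = ⊤ := fratt_arg hS
  have hAN := hY N hN1
  have hAR := hY R hR1
  obtain ⟨B0, -, hB0⟩ := SylIn.exists_ge (p := p) (R := (⊥ : Subgroup G)) (K := N)
    IsPGroup.of_bot bot_le
  obtain ⟨B, hB0B, hB⟩ := SylIn.exists_ge (p := p) (R := B0) (K := (⊤ : Subgroup G)) hB0.2.1 le_top
  refine A_of_one ⟨B, hB, ?_⟩
  set K := verb t G with hK
  haveI hKn : K.Normal := verb_normal t
  set f := QuotientGroup.mk' R with hf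
  have hRK : R ≤ K := by
    have := KI_le_verb (G := G) t R
    rwa [KI_perfect hR] at this
  have hmapK : K.map f = (KI t N).map f := by
    apply le_antisymm
    · rintro _ ⟨x, hx, rfl⟩
      obtain ⟨y, hy, z, hz, rfl⟩ := mem_sup_of_normal_right.1 (verb_le_KI_sup t R N hNR hx)
      refine ⟨y, hy, ?_⟩
      rw [map_mul, (mk_eq_one_iff' R z).2 hz, mul_one]
    · exact map_mono (KI_le_verb t N)
  have h1 : SylIn p ((B0 ⊓ KI t N).map f) ((KI t N).map f) := (sylIn_inf_KI hB0).map f
  have h2 : SylIn p ((B ⊓ K).map f) (K.map f) := (hB.inf_normal le_top).map f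
  have h3 : (B0 ⊓ KI t N).map f = (B ⊓ K).map f := by
    refine h1.eq_of_le (map_mono (inf_le_inf hB0B (KI_le_verb t N))) ?_ h2.2.1
    rw [← hmapK]; exact h2.1
  intro x hx
  have h4 : f x ∈ (B ⊓ K).map f := ⟨x, hx, rfl⟩
  rw [← h3] at h4
  obtain ⟨y, hy, hyx⟩ := h4
  have h5 : y⁻¹ * x ∈ R := by
    rw [← mk_eq_one_iff' R, map_mul, map_inv, ← hf, hyx, inv_mul_cancel]
  have h6 : y⁻¹ * x ∈ B := B.mul_mem (B.inv_mem (hB0B hy.1)) hx.1
  have h7 : y⁻¹ * x ∈ closure ((B : Set G) ∩ vals t G) := by
    have h8 := A_sub hAR (hB.inf_normal (N := R) le_top)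
    rw [KI_perfect hR] at h8
    have h9 := h8 ⟨⟨h6, h5⟩, h5⟩
    refine (Subgroup.closure_mono ?_) h9
    rintro z ⟨hz1, hz2⟩
    exact ⟨hz1.1, VI_subset t R hz2⟩
  have h8 : y ∈ closure ((B : Set G) ∩ vals t G) := by
    have h9 := A_sub hAN hB0 hy
    refine (Subgroup.closure_mono ?_) h9
    rintro z ⟨hz1, hz2⟩
    exact ⟨hB0B hz1, VI_subset t N hz2⟩
  have e : x = y * (y⁻¹ * x) := by group
  rw [e]
  exact mul_mem h8 h7

/-- a soluble subgroup which is perfect modulo a normal subgroup L lies in L -/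
theorem solvable_le_of_perfect {N L : Subgroup G} [L.Normal] [Group.IsSolvable N]
    (h : N ≤ ⁅N, N⁆ ⊔ L) : N ≤ L := by
  have h1 : ∀ n, N ≤ (derivedSeries N n).map N.subtype ⊔ L := by
    intro n
    induction n with
    | zero =>
      rw [derivedSeries_zero, ← MonoidHom.range_eq_map, range_subtype]
      exact le_sup_left
    | succ n ih =>
      calc N ≤ ⁅N, N⁆ ⊔ L := h
        _ ≤ ⁅(derivedSeries N n).map N.subtype ⊔ L, (derivedSeries N n).map N.subtype ⊔ L⁆ ⊔ L :=
            sup_le_sup_right (commutator_mono ih ih) L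
        _ ≤ (⁅(derivedSeries N n).map N.subtype, (derivedSeries N n).map N.subtype⁆ ⊔ L) ⊔ L :=
            sup_le_sup_right (commutator_sup_le _ _) L
        _ = (derivedSeries N (n + 1)).map N.subtype ⊔ L := by
            rw [sup_assoc, sup_idem, ← map_commutator]; rfl
  obtain ⟨n, hn⟩ := Group.IsSolvable.solvable (G := N)
  have h3 := h1 n
  rw [hn, Subgroup.map_bot, bot_sup_eq] at h3
  exact h3

theorem sylow_normal_of_nilpotent {L : Subgroup G} [L.Normal] [hL : Group.IsNilpotent L] {s : ℕ}
    [Fact s.Prime] {S : Subgroup G} (hS : SylIn s S L) : S.Normal := by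
  obtain ⟨Q, hQ⟩ := hS.exists_sylow_sub
  have h1 : (Q : Subgroup L).Normal := inferInstance
  have h2 : (Q : Subgroup L).Characteristic := Q.characteristic_of_normal h1
  have h3 : ((Q : Subgroup L).map L.subtype).Normal := inferInstance
  rw [hQ, map_subgroupOf_eq_of_le hS.1] at h3
  exact h3

theorem perfect_case (hG : commutator G = ⊤) {u v : Tree} (hu : A p u G) (hv : A p v G)
    (hY : ∀ Y : Subgroup G, Y ≠ ⊤ → A p (Tree.comm u v) Y)
    (hQ : ∀ (N : Subgroup G) [N.Normal], N ≠ ⊥ → A p (Tree.comm u v) (G ⧸ N))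
    (hbad : p ∣ Nat.card G → ¬ p ∣ Nat.card (frattini G) → IsSimpleGroup (G ⧸ frattini G) →
      A p (Tree.comm u v) G) :
    A p (Tree.comm u v) G := by
  by_contra hA
  have hno := fun (V : Subgroup G) => no_minNormal (V := V) hu hv hQ hA
  have hKt : verb (Tree.comm u v) G = ⊤ := verb_perfect hG _
  rw [hKt] at hno
  have hcomm : ⁅(⊤ : Subgroup G), (⊤ : Subgroup G)⁆ = ⊤ := hG
  rw [hcomm] at hno
  -- (P1)
  have P1 : ∀ T : Subgroup G, T.Normal → IsPGroup p T → T = ⊥ := by
    intro T hT hTp
    by_contra hne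
    obtain ⟨V, hV, hVT⟩ := exists_minNormal hT hne
    exact hno V hV (hTp.to_le hVT) le_top le_top
  -- (S1)
  have S1 : ∀ (N : Subgroup G), N.Normal → ¬ p ∣ Nat.card N → ∀ Y : Subgroup G, Y ⊔ N = ⊤ →
      Y = ⊤ := by
    intro N hN hpN Y hYN
    by_contra hYt
    exact hA (A_of_supp hpN hYN (hY Y hYt))
  -- nilpotent normal subgroups have order prime to p
  have hnilp : ∀ N : Subgroup G, N.Normal → Group.IsNilpotent N → ¬ p ∣ Nat.card N := by
    intro N hN hNn
    haveI := hN
    haveI := hNn
    obtain ⟨S, -, hS⟩ := SylIn.exists_ge (p := p) (R := (⊥ : Subgroup G)) (K := N)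
      IsPGroup.of_bot bot_le
    have h1 := P1 S (sylow_normal_of_nilpotent hS) hS.2.1
    rw [not_dvd_card_iff_sylIn_bot, ← h1]
    exact hS
  -- (P3)
  have P3 : ∀ N : Subgroup G, N.Normal → N ≠ ⊤ → Group.IsNilpotent N := by
    by_contra hcon
    push Not at hcon
    obtain ⟨N0, hN0, hN0t, hN0n⟩ := hcon
    obtain ⟨N, ⟨hNn, hNt, hNnil⟩, hmin⟩ := Set.Finite.exists_minimalFor
      (fun V : Subgroup G => Nat.card V)
      {V : Subgroup G | V.Normal ∧ V ≠ ⊤ ∧ ¬ Group.IsNilpotent V} (Set.toFinite _)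
      ⟨N0, hN0, hN0t, hN0n⟩
    haveI := hNn
    have hprop : ∀ M : Subgroup G, M.Normal → M ≤ N → M ≠ N → Group.IsNilpotent M := by
      intro M hM hMN hne
      by_contra hMnil
      have hMt : M ≠ ⊤ := fun h => hNt (top_le_iff.1 (h ▸ hMN))
      exact hne (eq_of_le_of_card_ge hMN (hmin ⟨hM, hMt, hMnil⟩ (card_le_of_le hMN)))
    have hNbot : N ≠ ⊥ := by
      rintro rfl
      exact hNnil inferInstance
    obtain ⟨L, ⟨hLn, hLN, hLne⟩, hmax⟩ := Set.Finite.exists_maximalFor
      (fun V : Subgroup G => Nat.card V)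
      {V : Subgroup G | V.Normal ∧ V ≤ N ∧ V ≠ N} (Set.toFinite _)
      ⟨⊥, inferInstance, bot_le, hNbot.symm⟩
    haveI := hLn
    haveI hLnil : Group.IsNilpotent L := hprop L hLn hLN hLne
    have hLp := hnilp L hLn hLnil
    have hchief : ∀ M : Subgroup G, M.Normal → L ≤ M → M ≤ N → M = L ∨ M = N := by
      intro M hM hLM hMN
      by_cases hMNe : M = N
      · exact Or.inr hMNe
      · left
        exact (eq_of_le_of_card_ge hLM (hmax ⟨hM, hMN, hMNe⟩ (card_le_of_le hLM))).symm
    -- N is soluble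
    have hNsol : Group.IsSolvable N := by
      by_cases hper : ⁅N, N⁆ = N
      · exfalso
        apply hA
        refine perfect_normal_case hY (R := N) ?_ hNbot hNt
        have h4 : (commutator N).map N.subtype = N := by
          rw [map_subtype_commutator]; exact hper
        have h5 : (commutator N).map N.subtype = (⊤ : Subgroup N).map N.subtype := by
          rw [h4, ← MonoidHom.range_eq_map, range_subtype]
        exact map_injective N.subtype_injective h5
      · have h1 : Group.IsNilpotent (⁅N, N⁆ : Subgroup G) :=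
          hprop _ inferInstance (commutator_le_left N N) hper
        obtain ⟨n, hn⟩ := Group.IsSolvable.solvable (G := (⁅N, N⁆ : Subgroup G))
        -- derived series of N
        have h2 : ∀ k, (derivedSeries N (k + 1)).map N.subtype ≤
            (derivedSeries (⁅N, N⁆ : Subgroup G) k).map (⁅N, N⁆ : Subgroup G).subtype := by
          intro k
          induction k with
          | zero =>
            rw [derivedSeries_zero, ← MonoidHom.range_eq_map, range_subtype, zero_add,
              derivedSeries_one, map_subtype_commutator]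
          | succ k ih =>
            rw [derivedSeries_succ, derivedSeries_succ (G := (⁅N, N⁆ : Subgroup G)),
              map_commutator, map_commutator]
            exact commutator_mono ih ih
        refine ⟨n + 1, ?_⟩
        have h3 := h2 n
        rw [hn, Subgroup.map_bot, le_bot_iff, map_eq_bot_iff_of_injective _ N.subtype_injective] at h3
        exact h3
    haveI := hNsol
    -- N / L is abelian
    have hab : ⁅N, N⁆ ≤ L := by
      rcases hchief (⁅N, N⁆ ⊔ L) inferInstance le_sup_right
        (sup_le (commutator_le_left N N) hLN) with h | h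
      · exact le_sup_left.trans h.le
      · exact absurd (le_antisymm hLN (solvable_le_of_perfect h.ge)) hLne
    have hcomm2 : ∀ x ∈ N, ∀ y ∈ N, Commute (QuotientGroup.mk' L x) (QuotientGroup.mk' L y) := by
      intro x hx y hy
      have h1 : ⁅x, y⁆ ∈ L := hab (commutator_mem_commutator hx hy)
      rw [← mk_eq_one_iff' L, map_commutatorElement] at h1
      exact commutatorElement_eq_one_iff_commute.1 h1
    have hidx : L.relIndex N ≠ 1 := fun h => hLne (le_antisymm hLN (relIndex_eq_one.1 h))
    set f := QuotientGroup.mk' L with hf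
    have hfs : Function.Surjective f := QuotientGroup.mk'_surjective L
    set r := (L.relIndex N).minFac with hr
    have hrp : r.Prime := Nat.minFac_prime hidx
    haveI : Fact r.Prime := ⟨hrp⟩
    have hcard : Nat.card (N.map f) = L.relIndex N := by
      have := relIndex_ker (K := N) f
      rw [hf, QuotientGroup.ker_mk'] at this
      exact this.symm
    let S : Subgroup (G ⧸ L) :=
      { carrier := {y | y ∈ N.map f ∧ ∃ k, y ^ (r ^ k) = 1}
        one_mem' := ⟨one_mem _, 0, by simp⟩
        mul_mem' := by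
          rintro x y ⟨hx, k, hk⟩ ⟨hy, l, hl⟩
          refine ⟨mul_mem hx hy, k + l, ?_⟩
          obtain ⟨x', hx', rfl⟩ := hx
          obtain ⟨y', hy', rfl⟩ := hy
          rw [(hcomm2 x' hx' y' hy').mul_pow, pow_add, pow_mul, hk, one_pow, one_mul, mul_comm,
            pow_mul, hl, one_pow]
        inv_mem' := by
          rintro x ⟨hx, k, hk⟩
          exact ⟨inv_mem hx, k, by rw [inv_pow, hk, inv_one]⟩ }
    have hNmap : (N.map f).Normal := hNn.map f hfs
    have hSn : S.Normal := by
      refine ⟨fun n hn g => ?_⟩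
      obtain ⟨h1, k, hk⟩ := hn
      refine ⟨hNmap.conj_mem n h1 g, k, ?_⟩
      rw [conj_pow, hk]; group
    have hSne : ∃ y ∈ S, y ≠ 1 := by
      obtain ⟨y, hy⟩ := exists_prime_orderOf_dvd_card' (G := N.map f) r
        (by rw [hcard]; exact Nat.minFac_dvd _)
      refine ⟨y, ⟨y.2, 1, ?_⟩, ?_⟩
      · have := pow_orderOf_eq_one y
        rw [hy] at this
        rw [pow_one]
        exact_mod_cast congrArg Subtype.val this
      · intro h
        have : y = 1 := Subtype.ext h
        rw [this, orderOf_one] at hy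
        exact hrp.one_lt.ne hy
    have hLS : L ≤ S.comap f := by
      intro x hx
      rw [mem_comap, (mk_eq_one_iff' L x).2 hx]
      exact one_mem _
    have hSleN : S.comap f ≤ N := by
      intro x hx
      obtain ⟨x', hx', hxx⟩ := (mem_comap.1 hx).1
      have h3 : x'⁻¹ * x ∈ L := by
        rw [← mk_eq_one_iff' L, map_mul, map_inv, ← hf, hxx, inv_mul_cancel]
      have e : x = x' * (x'⁻¹ * x) := by group
      rw [e]
      exact N.mul_mem hx' (hLN h3)
    have hSN : S.comap f = N := by
      rcases hchief (S.comap f) (hSn.comap f) hLS hSleN with h | h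
      · exfalso
        obtain ⟨y, hy, hy1⟩ := hSne
        obtain ⟨x, rfl⟩ := hfs y
        have hx : x ∈ S.comap f := hy
        rw [h] at hx
        exact hy1 ((mk_eq_one_iff' L x).2 hx)
      · exact h
    have hNr : ∀ x ∈ N, ∃ k, x ^ (r ^ k) ∈ L := by
      intro x hx
      rw [← hSN] at hx
      obtain ⟨-, k, hk⟩ := mem_comap.1 hx
      refine ⟨k, ?_⟩
      rw [← mk_eq_one_iff' L, map_pow]
      exact hk
    -- the Sylow r-subgroup of N is normal
    obtain ⟨R1, -, hR1⟩ := SylIn.exists_ge (p := r) (R := (⊥ : Subgroup G)) (K := N)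
      IsPGroup.of_bot bot_le
    have hrel : ∃ m, L.relIndex N = r ^ m := by
      have h3 : IsPGroup r (N.map f) := by
        rintro ⟨y, x, hx, rfl⟩
        obtain ⟨k, hk⟩ := hNr x hx
        refine ⟨k, Subtype.ext ?_⟩
        show (f x) ^ (r ^ k) = 1
        rw [← map_pow, hf, mk_eq_one_iff']
        exact hk
      obtain ⟨m, hm⟩ := IsPGroup.iff_card.1 h3
      exact ⟨m, by rw [← hcard, hm]⟩
    obtain ⟨m, hm⟩ := hrel
    have h5 : N ≤ L ⊔ R1 := by
      rw [← relIndex_eq_one]
      refine eq_one_of_pow_of_not_dvd (k := m) (p := r) ?_ ?_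
      · rw [← hm]; exact relIndex_dvd_of_le_left _ le_sup_left
      · intro h; exact hR1.2.2 (h.trans (relIndex_dvd_of_le_left _ le_sup_right))
    have h6 : normalizer (R1 : Set G) ⊔ L = ⊤ := by
      rw [eq_top_iff, ← fratt_arg hR1]
      refine sup_le le_sup_left (h5.trans (sup_le le_sup_right ?_))
      exact le_normalizer.trans le_sup_left
    have h7 := S1 L hLn hLp _ h6
    have h8 : R1.Normal := normalizer_eq_top_iff.1 h7
    -- all Sylow subgroups of N are normal
    apply hNnil
    refine ((Group.isNilpotent_of_finite_tfae (G := N)).out 0 3).2 ?_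
    intro s hs P
    have hP := SylIn.of_sylow_sub P
    have hPn : ((P : Subgroup N).map N.subtype).Normal := by
      by_cases hsr : s = r
      · subst hsr
        have h9 : R1 = (P : Subgroup N).map N.subtype := by
          haveI := h8
          have h10 := normal_pGroup_le (K := N) hR1.2.1 hR1.1 hP
          exact hR1.eq_of_le h10 hP.1 hP.2.1
        rw [← h9]; exact h8
      · have h9 : (P : Subgroup N).map N.subtype ≤ L := by
          intro x hx
          obtain ⟨k, hk⟩ := hNr x (hP.1 hx)
          obtain ⟨l, hl⟩ := hP.2.1 ⟨x, hx⟩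
          have hl' : x ^ (s ^ l) = 1 := by
            have := congrArg Subtype.val hl
            simpa only [SubmonoidClass.coe_pow, OneMemClass.coe_one] using this
          have hcop2 : Nat.Coprime (s ^ l) (r ^ k) :=
            Nat.Coprime.pow _ _ ((Nat.coprime_primes Fact.out hrp).2 hsr)
          have hb := Nat.gcd_eq_gcd_ab (s ^ l) (r ^ k)
          rw [hcop2.gcd_eq_one] at hb
          have h6 : x ^ (1 : ℤ) ∈ L := by
            have : ((1 : ℕ) : ℤ) = 1 := by norm_num
            rw [this] at hb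
            rw [hb, zpow_add, zpow_mul, zpow_mul, zpow_natCast, zpow_natCast, hl', one_zpow,
              one_mul]
            exact zpow_mem hk _
          simpa using h6
        exact sylow_normal_of_nilpotent (L := L) (hP.mono h9 hLN)
    exact hPn.of_map_subtype
  -- all proper normal subgroups lie in the Frattini subgroup
  have P4 : ∀ N : Subgroup G, N.Normal → N ≠ ⊤ → N ≤ frattini G := by
    intro N hN hNt
    have hNp := hnilp N hN (P3 N hN hNt)
    refine le_iInf₂ (fun Y hY' => ?_)
    by_contra hcon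
    have h1 : Y ⊔ N = ⊤ := hY'.2 _ (lt_of_le_of_ne le_sup_left (fun h => hcon (by
      rw [h]; exact le_sup_right)))
    exact hY'.1 (S1 N hN hNp Y h1)
  have hnontriv : Nontrivial G := by
    by_contra hcon
    rw [not_nontrivial_iff_subsingleton] at hcon
    apply hA
    intro B hB x hx
    have : x = 1 := Subsingleton.elim _ _
    rw [this]; exact one_mem _
  have hfrat : frattini G ≠ ⊤ := by
    intro h
    have := frattini_nongenerating (G := G) (K := ⊥) (by rw [bot_sup_eq, h])
    exact bot_ne_top this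
  have hfp : ¬ p ∣ Nat.card (frattini G) := hnilp _ inferInstance frattini_nilpotent
  have hpG : p ∣ Nat.card G := by
    by_contra hcon
    apply hA
    intro B hB x hx
    have h1 : Nat.card B ∣ Nat.card G := card_subgroup_dvd_card B
    obtain ⟨k, hk⟩ := IsPGroup.iff_card.1 hB.2.1
    have h2 : Nat.card B = 1 :=
      eq_one_of_pow_of_not_dvd (k := k) (hk ▸ dvd_rfl) (fun h => hcon (h.trans h1))
    have h3 : B = ⊥ := card_eq_one.1 h2
    have h4 : x ∈ (⊥ : Subgroup G) := h3 ▸ (inf_le_left (a := B) hx)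
    rw [mem_bot.1 h4]; exact one_mem _
  refine hA (hbad hpG hfp ?_)
  haveI : Nontrivial (G ⧸ frattini G) := by
    rw [QuotientGroup.nontrivial_iff]
    exact hfrat
  refine ⟨fun N hN => ?_⟩
  by_cases hNt : N.comap (QuotientGroup.mk' (frattini G)) = ⊤
  · right
    rw [← map_comap_eq_self_of_surjective (QuotientGroup.mk'_surjective _) N, hNt,
      map_top_of_surjective _ (QuotientGroup.mk'_surjective _)]
  · left
    have h1 := P4 _ (hN.comap _) hNt
    rw [← map_comap_eq_self_of_surjective (QuotientGroup.mk'_surjective (frattini G)) N,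
      eq_bot_iff]
    rintro _ ⟨x, hx, rfl⟩
    rw [mem_bot, mk_eq_one_iff']
    exact h1 hx

end

end MP_8aaf67
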