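import Mathlib

/-!
# Sylow subgroups of subgroups, as subgroups of the ambient group
-/

open Subgroup

set_option linter.unusedSectionVars false

namespace MP_8aaf67

/-- B is a Sylow p-subgroup of the subgroup K. -/
def SylIn (p : ℕ) {G : Type*} [Group G] (B K : Subgroup G) : Prop :=
  B ≤ K ∧ IsPGroup p B ∧ ¬ p ∣ B.relIndex K

section
variable {p : ℕ} [Fact p.Prime] {G : Type*} [Group G] [Finite G]

theorem SylIn.of_sylow (P : Sylow p G) : SylIn p (P : Subgroup G) ⊤ := by
  refine ⟨le_top, P.2, ?_⟩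
  rw [relIndex_top_right]
  exact P.not_dvd_index

theorem SylIn.exists_sylow {B : Subgroup G} (h : SylIn p B ⊤) : ∃ P : Sylow p G,
    (P : Subgroup G) = B := by
  have h2 : ¬ p ∣ B.index := by
    have := h.2.2
    rwa [relIndex_top_right] at this
  exact ⟨h.2.1.toSylow h2, rfl⟩

theorem eq_one_of_pow_of_not_dvd {n k : ℕ} (hn : n ∣ p ^ k) (hp : ¬ p ∣ n) : n = 1 := by
  obtain ⟨j, _, rfl⟩ := (Nat.dvd_prime_pow Fact.out).1 hn
  rcases Nat.eq_zero_or_pos j with hj | hj
  · simp [hj]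
  · exact absurd (dvd_pow_self p hj.ne') hp

theorem SylIn.eq_of_le {B C K : Subgroup G} (h : SylIn p B K) (hBC : B ≤ C) (hCK : C ≤ K)
    (hC : IsPGroup p C) : B = C := by
  have h1 : B.relIndex C ∣ B.relIndex K := by
    rw [← relIndex_mul_relIndex B C K hBC hCK]
    exact dvd_mul_right _ _
  obtain ⟨k, hk⟩ := IsPGroup.iff_card.1 hC
  have h2 : B.relIndex C ∣ p ^ k := hk ▸ relIndex_dvd_card B C
  have h3 : B.relIndex C = 1 := eq_one_of_pow_of_not_dvd h2 (fun h' => h.2.2 (h'.trans h1))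
  exact le_antisymm hBC (relIndex_eq_one.1 h3)

theorem relIndex_sup_eq (B N : Subgroup G) [N.Normal] :
    B.relIndex (B ⊔ N) = B.relIndex N := by
  have hc : ∀ (H K : Subgroup G), Nat.card (H ⊓ K : Subgroup G) * H.relIndex K = Nat.card K := by
    intro H K
    have := relIndex_mul_relIndex ⊥ (H ⊓ K) K bot_le inf_le_right
    rw [relIndex_bot_left, relIndex_bot_left, inf_relIndex_right] at this
    exact this
  have h1 := hc B N
  have h2 := hc N B
  have h3 := hc N (B ⊔ N)
  have h4 := hc B (B ⊔ N)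
  rw [relIndex_sup_right, inf_of_le_left (le_sup_right)] at h3
  rw [inf_of_le_left (le_sup_left)] at h4
  rw [inf_comm] at h2
  have ha : 0 < Nat.card (B ⊓ N : Subgroup G) := Nat.card_pos
  have hb : 0 < N.relIndex B := by
    rcases Nat.eq_zero_or_pos (N.relIndex B) with h | h
    · rw [h, mul_zero] at h2
      exact absurd h2.symm Nat.card_pos.ne'
    · exact h
  have h5 : Nat.card (B ⊓ N : Subgroup G) * N.relIndex B * B.relIndex (B ⊔ N)
      = Nat.card (B ⊓ N : Subgroup G) * N.relIndex B * B.relIndex N := by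
    rw [h2, h4, ← h3, ← h1, ← h2]
    ring
  exact Nat.eq_of_mul_eq_mul_left (Nat.mul_pos ha hb) h5

theorem SylIn.inf_normal {B K N : Subgroup G} (h : SylIn p B K) [N.Normal] (hN : N ≤ K) :
    SylIn p (B ⊓ N) N := by
  refine ⟨inf_le_right, h.2.1.to_le inf_le_left, ?_⟩
  rw [inf_relIndex_right, ← relIndex_sup_eq]
  intro hd
  refine h.2.2 (hd.trans ?_)
  rw [← relIndex_mul_relIndex B (B ⊔ N) K le_sup_left (sup_le h.1 hN)]
  exact dvd_mul_right _ _

theorem SylIn.exists_ge {R K : Subgroup G} (hR : IsPGroup p R) (hRK : R ≤ K) :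
    ∃ B, R ≤ B ∧ SylIn p B K := by
  have h1 : IsPGroup p (R.subgroupOf K) := hR.comap_subtype
  obtain ⟨Q, hQ⟩ := h1.exists_le_sylow
  refine ⟨(Q : Subgroup K).map K.subtype, ?_, map_subtype_le _, Q.2.map _, ?_⟩
  · intro x hx
    exact ⟨⟨x, hRK hx⟩, hQ hx, rfl⟩
  · have : ((Q : Subgroup K).map K.subtype).relIndex K = (Q : Subgroup K).index := by
      rw [relIndex, subgroupOf, comap_map_eq_self_of_injective K.subtype_injective]
    rw [this]
    exact Q.not_dvd_index

/-- A Sylow subgroup of K in the sense of Mathlib, seen in the ambient group. -/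
theorem SylIn.of_sylow_sub {K : Subgroup G} (Q : Sylow p K) :
    SylIn p ((Q : Subgroup K).map K.subtype) K := by
  refine ⟨map_subtype_le _, Q.2.map _, ?_⟩
  have : ((Q : Subgroup K).map K.subtype).relIndex K = (Q : Subgroup K).index := by
    rw [relIndex, subgroupOf, comap_map_eq_self_of_injective K.subtype_injective]
  rw [this]
  exact Q.not_dvd_index

theorem SylIn.exists_sylow_sub {B K : Subgroup G} (h : SylIn p B K) :
    ∃ Q : Sylow p K, (Q : Subgroup K) = B.subgroupOf K := by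
  have h1 : IsPGroup p (B.subgroupOf K) := h.2.1.comap_subtype
  exact ⟨h1.toSylow h.2.2, rfl⟩

theorem SylIn.conj {B C K : Subgroup G} (hB : SylIn p B K) (hC : SylIn p C K) :
    ∃ k ∈ K, ∀ x, x ∈ C ↔ k⁻¹ * x * k ∈ B := by
  obtain ⟨Q, hQ⟩ := hB.exists_sylow_sub
  obtain ⟨R, hR⟩ := hC.exists_sylow_sub
  obtain ⟨k, hk⟩ := MulAction.exists_smul_eq K Q R
  refine ⟨k, k.2, fun x => ?_⟩
  have key : ∀ y : K, y ∈ (R : Subgroup K) ↔ k⁻¹ * y * k ∈ (Q : Subgroup K) := by
    intro y
    rw [← hk, Sylow.coe_subgroup_smul, Subgroup.mem_pointwise_smul_iff_inv_smul_mem,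
      ← map_inv, MulAut.smul_def, MulAut.conj_apply, inv_inv]
  constructor
  · intro hx
    have hxK := hC.1 hx
    have h1 : (⟨x, hxK⟩ : K) ∈ (R : Subgroup K) := by rw [hR]; exact hx
    have h2 := (key _).1 h1
    rw [hQ] at h2
    exact h2
  · intro hx
    have hxK : x ∈ K := by
      have h3 := K.mul_mem (K.mul_mem k.2 (hB.1 hx)) (K.inv_mem k.2)
      have h4 : (k : G) * ((k : G)⁻¹ * x * k) * (k : G)⁻¹ = x := by group
      rwa [h4] at h3
    have h1 : k⁻¹ * (⟨x, hxK⟩ : K) * k ∈ (Q : Subgroup K) := by rw [hQ]; exact hx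
    have h2 := (key _).2 h1
    rw [hR] at h2
    exact h2

theorem SylIn.map {B K : Subgroup G} (h : SylIn p B K) {G' : Type*} [Group G'] (f : G →* G') :
    SylIn p (B.map f) (K.map f) := by
  refine ⟨map_mono h.1, h.2.1.map f, ?_⟩
  have h1 : (B.map f).relIndex (K.map f) ∣ B.relIndex K := by
    have h2 : ((B.subgroupOf K).map (f.subgroupMap K)).index ∣ (B.subgroupOf K).index :=
      index_map_dvd _ (f.subgroupMap_surjective K)
    have h3 : (B.subgroupOf K).map (f.subgroupMap K) = (B.map f).subgroupOf (K.map f) := by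
      ext ⟨y, hy⟩
      rw [mem_subgroupOf]
      constructor
      · rintro ⟨x, hx, hxy⟩
        refine ⟨x, hx, ?_⟩
        exact congrArg Subtype.val hxy
      · rintro ⟨x, hx, hxy⟩
        exact ⟨⟨x, h.1 hx⟩, hx, Subtype.ext hxy⟩
    rw [h3] at h2
    exact h2
  exact fun hd => h.2.2 (hd.trans h1)

/-- transitivity: a Sylow subgroup of M is Sylow in K if M has index prime to p in K. -/
theorem SylIn.trans_of_not_dvd {R M K : Subgroup G} (h : SylIn p R M) (hMK : M ≤ K)
    (hd : ¬ p ∣ M.relIndex K) : SylIn p R K := by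
  refine ⟨h.1.trans hMK, h.2.1, ?_⟩
  rw [← relIndex_mul_relIndex R M K h.1 hMK, (Fact.out : p.Prime).dvd_mul]
  rintro (h1 | h1)
  · exact h.2.2 h1
  · exact hd h1

theorem SylIn.mono {B M K : Subgroup G} (h : SylIn p B K) (hBM : B ≤ M) (hMK : M ≤ K) :
    SylIn p B M := by
  refine ⟨hBM, h.2.1, fun hd => h.2.2 ?_⟩
  rw [← relIndex_mul_relIndex B M K hBM hMK]
  exact hd.mul_right _

theorem normal_pGroup_le {V B K : Subgroup G} [V.Normal] (hV : IsPGroup p V) (hVK : V ≤ K)
    (h : SylIn p B K) : V ≤ B := by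
  have h1 : IsPGroup p (B ⊔ V : Subgroup G) := h.2.1.to_sup_of_normal_right hV
  have h2 := h.eq_of_le (le_sup_left : B ≤ B ⊔ V) (sup_le h.1 hVK) h1
  rw [h2]
  exact le_sup_right

theorem not_dvd_card_iff_sylIn_bot {K : Subgroup G} : ¬ p ∣ Nat.card K ↔ SylIn p ⊥ K := by
  constructor
  · intro h
    exact ⟨bot_le, IsPGroup.of_bot, by rwa [relIndex_bot_left]⟩
  · intro h
    have := h.2.2
    rwa [relIndex_bot_left] at this

end

end MP_8aaf67
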