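import Pool.Agent.Work.MP_8aaf67_al.Words
import Pool.Agent.Work.MP_8aaf67_al.Syl

/-!
# The statement for one group and its behaviour under supplements and quotients
-/

open Subgroup

set_option linter.unusedSectionVars false

namespace MP_8aaf67

/-- Every Sylow p-subgroup of the verbal subgroup is generated by values. -/
def A (p : ℕ) (t : Tree) (G : Type*) [Group G] : Prop :=
  ∀ B : Subgroup G, SylIn p B ⊤ → B ⊓ verb t G ≤ closure ((B : Set G) ∩ vals t G)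

/-- values computed in a subgroup -/
def VI {G : Type*} [Group G] (t : Tree) (Y : Subgroup G) : Set G := (Y.subtype) '' vals t Y

/-- verbal subgroup of a subgroup -/
def KI {G : Type*} [Group G] (t : Tree) (Y : Subgroup G) : Subgroup G := (verb t Y).map Y.subtype

section
variable {G : Type*} [Group G]

theorem VI_subset (t : Tree) (Y : Subgroup G) : VI t Y ⊆ vals t G := by
  rintro _ ⟨y, hy, rfl⟩
  exact map_mem_vals t Y.subtype hy

theorem VI_subset_self (t : Tree) (Y : Subgroup G) : VI t Y ⊆ Y := by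
  rintro _ ⟨y, hy, rfl⟩
  exact y.2

theorem KI_eq (t : Tree) (Y : Subgroup G) : KI t Y = closure (VI t Y) := by
  rw [KI, verb, MonoidHom.map_closure]; rfl

theorem KI_le (t : Tree) (Y : Subgroup G) : KI t Y ≤ Y := map_subtype_le _

theorem KI_le_verb (t : Tree) (Y : Subgroup G) : KI t Y ≤ verb t G := map_verb_le t Y.subtype

theorem conj_mem_VI (t : Tree) (Y : Subgroup G) {y x : G} (hy : y ∈ Y) (hx : x ∈ VI t Y) :
    y * x * y⁻¹ ∈ VI t Y := by
  obtain ⟨x', hx', rfl⟩ := hx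
  exact ⟨⟨y, hy⟩ * x' * (⟨y, hy⟩ : Y)⁻¹, conj_mem_vals t _ hx', rfl⟩

theorem verb_le_KI_sup (t : Tree) (N Y : Subgroup G) [N.Normal] (h : Y ⊔ N = ⊤) :
    verb t G ≤ KI t Y ⊔ N := by
  have hs : Function.Surjective ((QuotientGroup.mk' N).comp Y.subtype) := by
    intro q
    obtain ⟨g, rfl⟩ := QuotientGroup.mk'_surjective N q
    have hg : g ∈ Y ⊔ N := h ▸ mem_top g
    obtain ⟨y, hy, n, hn, rfl⟩ := mem_sup_of_normal_right.1 hg
    refine ⟨⟨y, hy⟩, ?_⟩
    simp only [MonoidHom.comp_apply, Subgroup.subtype_apply]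
    rw [map_mul]
    have : (QuotientGroup.mk' N) n = 1 := by
      rw [← MonoidHom.mem_ker, QuotientGroup.ker_mk']; exact hn
    rw [this, mul_one]
  have h1 : (verb t G).map (QuotientGroup.mk' N) = (KI t Y).map (QuotientGroup.mk' N) := by
    rw [map_verb t _ (QuotientGroup.mk'_surjective N), KI, map_map, map_verb t _ hs]
  intro x hx
  have hx1 : (QuotientGroup.mk' N) x ∈ (KI t Y).map (QuotientGroup.mk' N) := by
    rw [← h1]; exact ⟨x, hx, rfl⟩
  obtain ⟨y, hy, hxy⟩ := hx1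
  have : y⁻¹ * x ∈ N := by
    rw [← QuotientGroup.ker_mk' N, MonoidHom.mem_ker, map_mul, map_inv, hxy, inv_mul_cancel]
  have e : x = y * (y⁻¹ * x) := by group
  rw [e]
  exact mul_mem_sup hy this

theorem closure_conj_mem {B C : Subgroup G} {k : G} (hk : ∀ x, x ∈ C ↔ k⁻¹ * x * k ∈ B)
    (t : Tree) {x : G} (hx : k⁻¹ * x * k ∈ closure ((B : Set G) ∩ vals t G)) :
    x ∈ closure ((C : Set G) ∩ vals t G) := by
  have h1 : x ∈ (closure ((B : Set G) ∩ vals t G)).map (MulAut.conj k).toMonoidHom := by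
    refine ⟨_, hx, ?_⟩
    simp only [MulEquiv.toMonoidHom_eq_coe, MonoidHom.coe_coe, MulAut.conj_apply]
    group
  rw [MonoidHom.map_closure] at h1
  refine closure_mono ?_ h1
  rintro _ ⟨y, ⟨hyB, hyv⟩, rfl⟩
  refine ⟨?_, ?_⟩
  · rw [SetLike.mem_coe, hk]
    have : k⁻¹ * (k * y * k⁻¹) * k = y := by group
    simpa [mul_assoc] using hyB
  · exact conj_mem_vals t k hyv

end

section
variable {p : ℕ} [Fact p.Prime] {G : Type*} [Group G] [Finite G]

theorem A_of_one {t : Tree} (h : ∃ B : Subgroup G, SylIn p B ⊤ ∧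
    B ⊓ verb t G ≤ closure ((B : Set G) ∩ vals t G)) : A p t G := by
  obtain ⟨B, hB, hle⟩ := h
  intro C hC x hx
  obtain ⟨k, -, hk⟩ := hB.conj hC
  refine closure_conj_mem hk t (hle ⟨(hk x).1 hx.1, ?_⟩)
  have := (verb_normal (G := G) t).conj_mem x hx.2 k⁻¹
  simpa using this

theorem A_sub {t : Tree} {Y : Subgroup G} (h : A p t Y) {R : Subgroup G} (hR : SylIn p R Y) :
    R ⊓ KI t Y ≤ closure ((R : Set G) ∩ VI t Y) := by
  have h1 : SylIn p (R.subgroupOf Y) ⊤ := by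
    refine ⟨le_top, hR.2.1.comap_subtype, ?_⟩
    rw [relIndex_top_right]
    exact hR.2.2
  have h2 := h _ h1
  rintro x ⟨hxR, y, hy, rfl⟩
  have h3 : y ∈ closure (((R.subgroupOf Y : Subgroup Y) : Set Y) ∩ vals t Y) := h2 ⟨hxR, hy⟩
  have h4 : Y.subtype y ∈ (closure (((R.subgroupOf Y : Subgroup Y) : Set Y) ∩ vals t Y)).map
      Y.subtype := ⟨y, h3, rfl⟩
  rw [MonoidHom.map_closure] at h4
  refine closure_mono ?_ h4
  rintro _ ⟨z, ⟨hz1, hz2⟩, rfl⟩
  exact ⟨hz1, z, hz2, rfl⟩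

theorem sylIn_inf_KI {t : Tree} {Y R : Subgroup G} (hR : SylIn p R Y) :
    SylIn p (R ⊓ KI t Y) (KI t Y) := by
  have h1 : SylIn p (R.subgroupOf Y) ⊤ := by
    refine ⟨le_top, hR.2.1.comap_subtype, ?_⟩
    rw [relIndex_top_right]
    exact hR.2.2
  have h2 := (h1.inf_normal (N := verb t Y) le_top).map Y.subtype
  have h3 : (R.subgroupOf Y ⊓ verb t Y).map Y.subtype = R ⊓ KI t Y := by
    ext x
    constructor
    · rintro ⟨y, ⟨hy1, hy2⟩, rfl⟩
      exact ⟨hy1, y, hy2, rfl⟩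
    · rintro ⟨hx, y, hy, rfl⟩
      exact ⟨y, ⟨hx, hy⟩, rfl⟩
  rw [h3] at h2
  exact h2

theorem A_of_sub {t : Tree} {Y : Subgroup G} (h : A p t Y)
    (hd : ¬ p ∣ (KI t Y).relIndex (verb t G)) : A p t G := by
  obtain ⟨R, -, hR⟩ := SylIn.exists_ge (p := p) (R := (⊥ : Subgroup G)) (K := Y)
    IsPGroup.of_bot bot_le
  obtain ⟨B, hRB, hB⟩ := SylIn.exists_ge (p := p) (R := R) (K := (⊤ : Subgroup G)) hR.2.1 le_top
  refine A_of_one ⟨B, hB, ?_⟩
  have h1 : SylIn p (R ⊓ KI t Y) (verb t G) :=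
    (sylIn_inf_KI (t := t) hR).trans_of_not_dvd (KI_le_verb t Y) hd
  have h2 : R ⊓ KI t Y = B ⊓ verb t G :=
    h1.eq_of_le (inf_le_inf hRB (KI_le_verb t Y)) inf_le_right (hB.2.1.to_le inf_le_left)
  rw [← h2]
  refine (A_sub h hR).trans (closure_mono ?_)
  rintro x ⟨hx1, hx2⟩
  exact ⟨hRB hx1, VI_subset t Y hx2⟩

theorem A_of_supp {t : Tree} {N Y : Subgroup G} [N.Normal] (hN : ¬ p ∣ Nat.card N)
    (hNY : Y ⊔ N = ⊤) (h : A p t Y) : A p t G := by
  refine A_of_sub h ?_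
  have h1 : (KI t Y).relIndex (KI t Y ⊔ N) = (KI t Y).relIndex N := relIndex_sup_eq _ _
  have h2 : (KI t Y).relIndex (verb t G) ∣ (KI t Y).relIndex (KI t Y ⊔ N) := by
    rw [← relIndex_mul_relIndex (KI t Y) (verb t G) (KI t Y ⊔ N) (KI_le_verb t Y)
      (verb_le_KI_sup t N Y hNY)]
    exact dvd_mul_right _ _
  intro hd
  have h3 := hd.trans h2
  rw [h1] at h3
  exact hN (h3.trans (relIndex_dvd_card _ _))

theorem A_quot {t : Tree} {N : Subgroup G} [N.Normal] (hN : IsPGroup p N) (h : A p t (G ⧸ N))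
    {B : Subgroup G} (hB : SylIn p B ⊤) :
    B ⊓ verb t G ≤ closure ((B : Set G) ∩ vals t G) ⊔ (N ⊓ verb t G) := by
  have hNB : N ≤ B := normal_pGroup_le hN le_top hB
  set f := QuotientGroup.mk' N with hf
  have hfs : Function.Surjective f := QuotientGroup.mk'_surjective N
  have hB' : SylIn p (B.map f) ⊤ := by
    have := hB.map f
    rwa [map_top_of_surjective f hfs] at this
  have h1 := h _ hB'
  rintro x ⟨hxB, hxK⟩
  have hx2 : f x ∈ B.map f ⊓ verb t (G ⧸ N) :=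
    ⟨⟨x, hxB, rfl⟩, by rw [← map_verb t f hfs]; exact ⟨x, hxK, rfl⟩⟩
  have hx3 := h1 hx2
  have hsub : ((B.map f : Subgroup (G ⧸ N)) : Set (G ⧸ N)) ∩ vals t (G ⧸ N)
      ⊆ f '' ((B : Set G) ∩ vals t G) := by
    rintro y ⟨⟨b, hb, hby⟩, hyv⟩
    obtain ⟨g, hg, hgy⟩ := exists_of_mem_vals t f hfs hyv
    refine ⟨g, ⟨?_, hg⟩, hgy⟩
    have : b⁻¹ * g ∈ N := by
      rw [← QuotientGroup.ker_mk' N, MonoidHom.mem_ker, map_mul, map_inv, ← hf, hby, hgy,
        inv_mul_cancel]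
    have e : g = b * (b⁻¹ * g) := by group
    rw [SetLike.mem_coe, e]
    exact B.mul_mem hb (hNB this)
  have hx4 : f x ∈ (closure ((B : Set G) ∩ vals t G)).map f := by
    rw [MonoidHom.map_closure]
    exact closure_mono hsub hx3
  obtain ⟨y, hy, hyx⟩ := hx4
  have hyx2 : y⁻¹ * x ∈ N := by
    rw [← QuotientGroup.ker_mk' N, MonoidHom.mem_ker, map_mul, map_inv, ← hf, hyx,
      inv_mul_cancel]
  have hyK : y ∈ verb t G := by
    refine (Subgroup.closure_mono ?_) hy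
    exact Set.inter_subset_right
  have e : x = y * (y⁻¹ * x) := by group
  rw [e]
  exact mul_mem_sup hy ⟨hyx2, (verb t G).mul_mem ((verb t G).inv_mem hyK) hxK⟩

end

end MP_8aaf67
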