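import Pool.Agent.Work.MP_8aaf67_al.Tools

/-!
# The soluble case
-/

open Subgroup
open scoped commutatorElement Pointwise

set_option linter.unusedSectionVars false
set_option linter.style.haveILetI false

namespace MP_8aaf67

section
variable {p : ℕ} [Fact p.Prime] {G : Type*} [Group G] [Finite G]

/-- A minimal normal p-subgroup is abelian. -/
theorem MinNormal.comm {V : Subgroup G} (hV : MinNormal V) (hVp : IsPGroup p V) : Cz V V := by
  haveI := hV.1
  have h1 : (⁅V, V⁆ : Subgroup G).Normal := inferInstance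
  rcases hV.2.2 _ h1 (commutator_le_left V V) with h | h
  · intro x hx y hy
    have : ⁅x⁻¹, y⁻¹⁆ ∈ ⁅V, V⁆ := commutator_mem_commutator (V.inv_mem hx) (V.inv_mem hy)
    rw [h] at this
    have := mem_bot.1 this
    simpa [cm, commutatorElement_def] using this
  · exfalso
    have hnil : Group.IsNilpotent V := hVp.isNilpotent
    have hsol : Group.IsSolvable V := inferInstance
    haveI : Nontrivial V := (nontrivial_iff_ne_bot V).2 hV.2.1
    have h2 := Group.IsSolvable.commutator_lt_top_of_nontrivial V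
    have h3 : commutator V = ⊤ := by
      have h4 : (commutator V).map V.subtype = V := by
        rw [map_subtype_commutator]; exact h
      have h5 : (commutator V).map V.subtype = (⊤ : Subgroup V).map V.subtype := by
        rw [h4, ← MonoidHom.range_eq_map, range_subtype]
      exact map_injective V.subtype_injective h5
    exact absurd h3 h2.ne

theorem commutator_le_of_central {H V K : Subgroup G} (hVK : Cz V K)
    (hHK : H ≤ K) (hV : V ≤ K) : ⁅H ⊔ V, H ⊔ V⁆ ≤ H := by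
  have hmem : ∀ x ∈ H ⊔ V, ∃ h ∈ H, ∃ v ∈ V, x = h * v := by
    intro x hx
    rw [sup_eq_closure] at hx
    induction hx using closure_induction with
    | mem x hx =>
      rcases hx with h | h
      · exact ⟨x, h, 1, one_mem _, by simp⟩
      · exact ⟨1, one_mem _, x, h, by simp⟩
    | one => exact ⟨1, one_mem _, 1, one_mem _, by simp⟩
    | inv x hx ihx =>
      obtain ⟨h1, hh1, v1, hv1, rfl⟩ := ihx
      refine ⟨h1⁻¹, H.inv_mem hh1, v1⁻¹, V.inv_mem hv1, ?_⟩
      have : Commute v1 h1 := (cm_eq_one_iff _ _).1 (hVK v1 hv1 h1 (hHK hh1))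
      rw [mul_inv_rev, this.inv_inv.eq]
    | mul x y hx hy ihx ihy =>
      obtain ⟨h1, hh1, v1, hv1, rfl⟩ := ihx
      obtain ⟨h2, hh2, v2, hv2, rfl⟩ := ihy
      refine ⟨h1 * h2, H.mul_mem hh1 hh2, v1 * v2, V.mul_mem hv1 hv2, ?_⟩
      have := (cm_eq_one_iff _ _).1 (hVK v1 hv1 h2 (hHK hh2))
      calc h1 * v1 * (h2 * v2) = h1 * (v1 * h2) * v2 := by group
        _ = h1 * (h2 * v1) * v2 := by rw [this]
        _ = _ := by group
  rw [commutator_le]
  intro x hx y hy
  obtain ⟨h1, hh1, v1, hv1, rfl⟩ := hmem x hx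
  obtain ⟨h2, hh2, v2, hv2, rfl⟩ := hmem y hy
  have c1 : Commute v1 h2 := (cm_eq_one_iff _ _).1 (hVK v1 hv1 h2 (hHK hh2))
  have c2 : Commute v2 h1 := (cm_eq_one_iff _ _).1 (hVK v2 hv2 h1 (hHK hh1))
  have c3 : Commute v1 v2 := (cm_eq_one_iff _ _).1 (hVK v1 hv1 v2 (hV hv2))
  have c4 : Commute v1 h1 := (cm_eq_one_iff _ _).1 (hVK v1 hv1 h1 (hHK hh1))
  have c5 : Commute v2 h2 := (cm_eq_one_iff _ _).1 (hVK v2 hv2 h2 (hHK hh2))
  have e : ⁅h1 * v1, h2 * v2⁆ = ⁅h1, h2⁆ := by
    simp only [commutatorElement_def, mul_inv_rev]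
    have d1 : h1 * v1 * (h2 * v2) = h1 * h2 * (v1 * v2) := by
      calc h1 * v1 * (h2 * v2) = h1 * (v1 * h2) * v2 := by group
        _ = h1 * (h2 * v1) * v2 := by rw [c1.eq]
        _ = _ := by group
    have d2 : v1⁻¹ * h1⁻¹ * (v2⁻¹ * h2⁻¹) = (v1 * v2)⁻¹ * (h1⁻¹ * h2⁻¹) := by
      have e1 : h1⁻¹ * v2⁻¹ = v2⁻¹ * h1⁻¹ := (c2.inv_inv.eq).symm
      calc v1⁻¹ * h1⁻¹ * (v2⁻¹ * h2⁻¹) = v1⁻¹ * (h1⁻¹ * v2⁻¹) * h2⁻¹ := by group
        _ = v1⁻¹ * (v2⁻¹ * h1⁻¹) * h2⁻¹ := by rw [e1]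
        _ = (v1⁻¹ * v2⁻¹) * (h1⁻¹ * h2⁻¹) := by group
        _ = _ := by rw [c3.inv_inv.eq, mul_inv_rev]
    calc h1 * v1 * (h2 * v2) * (v1⁻¹ * h1⁻¹) * (v2⁻¹ * h2⁻¹)
        = (h1 * v1 * (h2 * v2)) * (v1⁻¹ * h1⁻¹ * (v2⁻¹ * h2⁻¹)) := by group
      _ = _ := by rw [d1, d2]; group
  rw [e]
  exact H.mul_mem (H.mul_mem (H.mul_mem hh1 hh2) (H.inv_mem hh1)) (H.inv_mem hh2)

theorem solvable_case [Group.IsSolvable G] {u v : Tree} (hu : A p u G) (hv : A p v G)
    (hY : ∀ Y : Subgroup G, Y ≠ ⊤ → A p (Tree.comm u v) Y)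
    (hQ : ∀ (N : Subgroup G) [N.Normal], N ≠ ⊥ → A p (Tree.comm u v) (G ⧸ N)) :
    A p (Tree.comm u v) G := by
  by_contra hA
  set t := Tree.comm u v with ht
  set K := verb t G with hK
  haveI hKn : K.Normal := verb_normal t
  -- (S1)
  have S1 : ∀ (N : Subgroup G), N.Normal → ¬ p ∣ Nat.card N → ∀ Y : Subgroup G, Y ⊔ N = ⊤ →
      Y = ⊤ := by
    intro N hN hpN Y hYN
    by_contra hYt
    exact hA (A_of_supp hpN hYN (hY Y hYt))
  obtain ⟨B, -, hB⟩ := SylIn.exists_ge (p := p) (R := (⊥ : Subgroup G)) (K := (⊤ : Subgroup G))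
    IsPGroup.of_bot bot_le
  set H := closure ((B : Set G) ∩ vals t G) with hH
  have hHK : H ≤ K := Subgroup.closure_mono Set.inter_subset_right
  have hHB : H ≤ B := by rw [hH, closure_le]; exact Set.inter_subset_left
  have hnot : ¬ (B ⊓ K ≤ H) := fun h => hA (A_of_one ⟨B, hB, h⟩)
  have S3 : ∀ V : Subgroup G, V.Normal → V ≠ ⊥ → IsPGroup p V → B ⊓ K ≤ H ⊔ (V ⊓ K) := by
    intro V hV hV1 hVp
    exact A_quot hVp (hQ V hV1) hB
  have S3' : ∀ V : Subgroup G, V.Normal → V ≠ ⊥ → IsPGroup p V → V ≤ K → B ⊓ K ≤ H ⊔ V := by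
    intro V hV hV1 hVp hVK
    exact (S3 V hV hV1 hVp).trans (sup_le_sup_left inf_le_left _)
  have S4 : ∀ V : Subgroup G, MinNormal V → IsPGroup p V → V ≤ K → ¬ V ≤ H := by
    intro V hV hVp hVK hVH
    exact hnot ((S3' V hV.1 hV.2.1 hVp hVK).trans (sup_le le_rfl hVH))
  have S4c : ∀ V : Subgroup G, MinNormal V → IsPGroup p V → V ≤ K →
      Cz V (verb u G) ∧ Cz V (verb v G) := by
    intro V hV hVp hVK
    by_contra hc
    exact S4 V hV hVp hVK (stepV hu hv hV hVp hVK hB hc)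
  have hPK : SylIn p (B ⊓ K) K := hB.inf_normal le_top
  have S4d : ∀ V : Subgroup G, MinNormal V → IsPGroup p V → V ≤ K → ¬ V ≤ ⁅K, K⁆ := by
    intro V hV hVp hVK hVK'
    have hVc : Cz V K := (S4c V hV hVp hVK).1.mono le_rfl (verb_comm_le_left u v)
    haveI := hV.1
    have hVB : V ≤ B := normal_pGroup_le hVp le_top hB
    apply S4 V hV hVp hVK
    have h1 : ⁅B ⊓ K, B ⊓ K⁆ ≤ H :=
      (commutator_mono (S3' V hV.1 hV.2.1 hVp hVK) (S3' V hV.1 hV.2.1 hVp hVK)).trans
        (commutator_le_of_central hVc hHK hVK)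
    refine le_trans ?_ h1
    intro z hz
    -- transfer in the group K
    have hzK : z ∈ K := hVK hz
    have h2 : (⟨z, hzK⟩ : K) ∈ commutator K := by
      have h3 : z ∈ (commutator K).map K.subtype := by
        rw [map_subtype_commutator]; exact hVK' hz
      obtain ⟨y, hy, hyz⟩ := h3
      have : y = ⟨z, hzK⟩ := Subtype.ext hyz
      rwa [this] at hy
    have h4 : (⟨z, hzK⟩ : K) ∈ ⁅(B ⊓ K).subgroupOf K, (B ⊓ K).subgroupOf K⁆ := by
      refine central_mem_commutator (p := p) ?_ hPK.2.2 ?_ ?_ h2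
      · exact hPK.2.1.comap_subtype
      · exact ⟨hVB hz, hzK⟩
      · rw [mem_center_iff]
        intro g
        exact Subtype.ext ((cm_eq_one_iff _ _).1 (hVc z hz g g.2)).symm
    have h5 : K.subtype ⟨z, hzK⟩ ∈
        (⁅(B ⊓ K).subgroupOf K, (B ⊓ K).subgroupOf K⁆).map K.subtype := ⟨_, h4, rfl⟩
    rw [map_commutator, map_subgroupOf_eq_of_le hPK.1] at h5
    exact h5
  -- the largest normal p-prime subgroup and the largest normal p-subgroup inside K
  obtain ⟨Q, ⟨hQn, hQK, hQp⟩, hQmax⟩ := exists_greatest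
    (fun N : Subgroup G => N.Normal ∧ N ≤ K ∧ ¬ p ∣ Nat.card N)
    ⟨inferInstance, bot_le, by rw [card_bot]; exact (Fact.out : p.Prime).one_lt.ne' ∘ Nat.dvd_one.1⟩
    (fun M N hM hN => by
      haveI := hM.1
      haveI := hN.1
      exact ⟨inferInstance, sup_le hM.2.1 hN.2.1, not_dvd_card_sup hM.2.2 hN.2.2⟩)
  obtain ⟨T, ⟨hTn, hTK, hTp⟩, hTmax⟩ := exists_greatest
    (fun N : Subgroup G => N.Normal ∧ N ≤ K ∧ IsPGroup p N)
    ⟨inferInstance, bot_le, IsPGroup.of_bot⟩
    (fun M N hM hN => by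
      haveI := hM.1
      haveI := hN.1
      exact ⟨inferInstance, sup_le hM.2.1 hN.2.1, hM.2.2.to_sup_of_normal_right hN.2.2⟩)
  haveI := hQn
  haveI := hTn
  -- T is central in K
  have hTc : Cz T K := by
    have h1 : T ⊓ ⁅K, K⁆ = ⊥ := by
      by_contra hne
      obtain ⟨V, hV, hVle⟩ := exists_minNormal (T := T ⊓ ⁅K, K⁆) inferInstance hne
      exact S4d V hV (hTp.to_le (hVle.trans inf_le_left)) ((hVle.trans inf_le_left).trans hTK)
        (hVle.trans inf_le_right)
    intro x hx y hy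
    have h2 : cm x y ∈ T ⊓ ⁅K, K⁆ := by
      refine ⟨cm_mem_of_normal_left hx y, ?_⟩
      have : ⁅x⁻¹, y⁻¹⁆ ∈ ⁅K, K⁆ :=
        commutator_mem_commutator (K.inv_mem (hTK hx)) (K.inv_mem hy)
      simpa [cm, commutatorElement_def] using this
    rw [h1] at h2
    exact mem_bot.1 h2
  set M := Q ⊔ T with hM
  have hMK : M ≤ K := sup_le hQK hTK
  haveI hMn : M.Normal := inferInstance
  have hTcard : ∃ n, Nat.card T = p ^ n := IsPGroup.iff_card.1 hTp
  obtain ⟨n, hn⟩ := hTcard
  have hTQ : ¬ p ∣ T.relIndex M := by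
    rw [hM, sup_comm, relIndex_sup_left]
    exact fun h => hQp (h.trans (relIndex_dvd_card _ _))
  -- (S5)
  have S5 : K ≤ M := by
    by_contra hcon
    obtain ⟨R, r, hRn, hMR, hRK, hRM, hrp, hRr⟩ := sol_chief hKn hMK hcon
    haveI := hRn
    by_cases hrp' : r = p
    · subst hrp'
      obtain ⟨P1, -, hP1⟩ := SylIn.exists_ge (p := r) (R := (⊥ : Subgroup G)) (K := R)
        IsPGroup.of_bot bot_le
      -- R/Q is a p-group
      have h1 : ∀ x ∈ R, ∃ k, x ^ (r ^ k) ∈ Q := by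
        intro x hx
        obtain ⟨k, hk⟩ := hRr x hx
        obtain ⟨q, hq, y, hy, hqy⟩ := mem_sup_of_normal_right.1 hk
        obtain ⟨l, hl⟩ := hTp ⟨y, hy⟩
        have hl' : y ^ (r ^ l) = 1 := by
          have := congrArg Subtype.val hl
          simpa only [SubmonoidClass.coe_pow, OneMemClass.coe_one] using this
        refine ⟨k + l, ?_⟩
        rw [pow_add, pow_mul, ← hqy, ← mk_eq_one_iff' Q, map_pow, map_mul,
          (mk_eq_one_iff' Q q).2 hq, one_mul, ← map_pow, hl', map_one]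
      have h2 : ∃ m, Q.relIndex R = r ^ m := by
        have h3 : IsPGroup r (R.map (QuotientGroup.mk' Q)) := by
          rintro ⟨y, x, hx, rfl⟩
          obtain ⟨k, hk⟩ := h1 x hx
          refine ⟨k, Subtype.ext ?_⟩
          show (QuotientGroup.mk' Q x) ^ (r ^ k) = 1
          rw [← map_pow, mk_eq_one_iff']
          exact hk
        obtain ⟨m, hm⟩ := IsPGroup.iff_card.1 h3
        refine ⟨m, ?_⟩
        have h4 := relIndex_ker (K := R) (QuotientGroup.mk' Q)
        rw [QuotientGroup.ker_mk'] at h4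
        rw [h4, hm]
      obtain ⟨m, hm⟩ := h2
      have h5 : R ≤ Q ⊔ P1 := by
        rw [← relIndex_eq_one]
        refine eq_one_of_pow_of_not_dvd (k := m) (p := r) ?_ ?_
        · rw [← hm]; exact relIndex_dvd_of_le_left _ le_sup_left
        · intro h; exact hP1.2.2 (h.trans (relIndex_dvd_of_le_left _ le_sup_right))
      have h6 : normalizer (P1 : Set G) ⊔ Q = ⊤ := by
        rw [eq_top_iff, ← fratt_arg hP1]
        refine sup_le le_sup_left (h5.trans (sup_le le_sup_right ?_))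
        exact le_normalizer.trans le_sup_left
      have h7 := S1 Q hQn hQp _ h6
      have h8 : P1.Normal := normalizer_eq_top_iff.1 h7
      have h9 := hTmax P1 ⟨h8, hP1.1.trans hRK, hP1.2.1⟩
      exact hRM (h5.trans (sup_le le_sup_left (h9.trans le_sup_right)))
    · haveI : Fact r.Prime := ⟨hrp⟩
      -- T is a central Sylow subgroup of R
      have hTR : T ≤ R := le_sup_right.trans hMR
      have h1 : ∃ m, M.relIndex R = r ^ m := by
        have h3 : IsPGroup r (R.map (QuotientGroup.mk' M)) := by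
          rintro ⟨y, x, hx, rfl⟩
          obtain ⟨k, hk⟩ := hRr x hx
          refine ⟨k, Subtype.ext ?_⟩
          show (QuotientGroup.mk' M x) ^ (r ^ k) = 1
          rw [← map_pow, mk_eq_one_iff']
          exact hk
        obtain ⟨m, hm⟩ := IsPGroup.iff_card.1 h3
        refine ⟨m, ?_⟩
        have h4 := relIndex_ker (K := R) (QuotientGroup.mk' M)
        rw [QuotientGroup.ker_mk'] at h4
        rw [h4, hm]
      obtain ⟨m, hm⟩ := h1
      have hpr : ¬ p ∣ r ^ m := fun h =>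
        hrp' ((Nat.prime_dvd_prime_iff_eq Fact.out hrp).1 ((Fact.out : p.Prime).dvd_of_dvd_pow h)).symm
      have h2 : ¬ p ∣ T.relIndex R := by
        rw [← relIndex_mul_relIndex T M R le_sup_right hMR, (Fact.out : p.Prime).dvd_mul]
        rintro (h | h)
        · exact hTQ h
        · rw [hm] at h; exact hpr h
      have hcop : Nat.Coprime (Nat.card (T.subgroupOf R)) (T.subgroupOf R).index := by
        have e1 : Nat.card (T.subgroupOf R) = p ^ n := by
          rw [Nat.card_congr (subgroupOfEquivOfLe hTR).toEquiv, hn]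
        rw [e1]
        exact Nat.Coprime.pow_left _ (((Fact.out : p.Prime).coprime_iff_not_dvd).2 h2)
      obtain ⟨C, hC⟩ := exists_right_complement'_of_coprime hcop
      have hCcard : ¬ p ∣ Nat.card C := by
        have := hC.card_mul_card
        have h3 : Nat.card (T.subgroupOf R) * (T.subgroupOf R).index = Nat.card R :=
          card_mul_index _
        have h4 : Nat.card C = (T.subgroupOf R).index :=
          Nat.eq_of_mul_eq_mul_left Nat.card_pos (this.trans h3.symm)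
        rw [h4]; exact h2
      have hpow : ∀ x ∈ R, ∃ c : R, c ∈ C ∧ (c : G) = x ^ (p ^ n) := by
        intro x hx
        have h3 : (⟨x, hx⟩ : R) ∈ ((T.subgroupOf R : Set R) * (C : Set R)) := by
          rw [hC.mul_eq]; trivial
        obtain ⟨y, hy, c, hc, hyc⟩ := h3
        refine ⟨c ^ (p ^ n), C.pow_mem hc _, ?_⟩
        have hyT : (y : G) ∈ T := hy
        have e1 : x = (y : G) * (c : G) := (congrArg Subtype.val hyc).symm
        have hcomm : Commute (y : G) (c : G) :=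
          (cm_eq_one_iff _ _).1 (hTc y hyT c (hRK c.2))
        have e2 : (y : G) ^ (p ^ n) = 1 := by
          have : (⟨(y : G), hyT⟩ : T) ^ (Nat.card T) = 1 := pow_card_eq_one'
          rw [hn] at this
          have h7 := congrArg Subtype.val this
          simpa only [SubmonoidClass.coe_pow, OneMemClass.coe_one] using h7
        rw [e1, hcomm.mul_pow, e2, one_mul]
        rfl
      set N1 := closure {y | ∃ x ∈ R, x ^ (p ^ n) = y} with hN1
      have hN1n : N1.Normal := by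
        refine ⟨fun z hz g => ?_⟩
        have h4 : g * z * g⁻¹ ∈ N1.map (MulAut.conj g).toMonoidHom := ⟨z, hz, by simp⟩
        rw [hN1, MonoidHom.map_closure] at h4
        refine Subgroup.closure_mono ?_ h4
        rintro _ ⟨y, ⟨x, hx, rfl⟩, rfl⟩
        refine ⟨g * x * g⁻¹, hRn.conj_mem x hx g, ?_⟩
        rw [map_pow]
        simp
      have hN1C : N1 ≤ C.map R.subtype := by
        rw [hN1, closure_le]
        rintro _ ⟨x, hx, rfl⟩
        obtain ⟨c, hc, hcx⟩ := hpow x hx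
        exact ⟨c, hc, hcx⟩
      have hN1p : ¬ p ∣ Nat.card N1 := by
        intro h
        apply hCcard
        have h5 : Nat.card (C.map R.subtype) ∣ Nat.card C := card_map_dvd _ _
        exact (h.trans (card_dvd_of_le hN1C)).trans h5
      have hN1Q : N1 ≤ Q := by
        refine hQmax N1 ⟨hN1n, ?_, hN1p⟩
        exact (hN1C.trans (map_subtype_le _)).trans hRK
      apply hRM
      intro x hx
      have e1 : x ^ (p ^ n) ∈ M := le_sup_left (a := Q) (hN1Q (subset_closure ⟨x, hx, rfl⟩))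
      obtain ⟨k, hk⟩ := hRr x hx
      have hcop2 : Nat.Coprime (p ^ n) (r ^ k) :=
        Nat.Coprime.pow _ _ ((Nat.coprime_primes Fact.out hrp).2 (fun h => hrp' h.symm))
      have hb := Nat.gcd_eq_gcd_ab (p ^ n) (r ^ k)
      rw [hcop2.gcd_eq_one] at hb
      have h6 : x ^ (1 : ℤ) ∈ M := by
        have : ((1 : ℕ) : ℤ) = 1 := by norm_num
        rw [this] at hb
        rw [hb, zpow_add, zpow_mul, zpow_mul, zpow_natCast, zpow_natCast]
        exact M.mul_mem (zpow_mem e1 _) (zpow_mem hk _)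
      simpa using h6
  -- P = T
  have hTK' : SylIn p T K := by
    refine ⟨hTK, hTp, ?_⟩
    have : K = M := le_antisymm S5 hMK
    rw [this]; exact hTQ
  have hTB : T ≤ B := normal_pGroup_le hTp le_top hB
  have hTP : T = B ⊓ K := hTK'.eq_of_le (le_inf hTB hTK) inf_le_right (hB.2.1.to_le inf_le_left)
  have hHT : H = closure ((T : Set G) ∩ vals t G) := by
    rw [hH]
    congr 1
    ext x
    constructor
    · rintro ⟨h1, h2⟩
      refine ⟨?_, h2⟩
      rw [hTP]; exact ⟨h1, vals_subset_verb t h2⟩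
    · rintro ⟨h1, h2⟩
      exact ⟨hTB h1, h2⟩
  have hHbot : H = ⊥ := by
    by_contra hne
    have hHn : H.Normal := by rw [hHT]; exact closure_inter_vals_normal hTn t
    obtain ⟨V, hV, hVH⟩ := exists_minNormal hHn hne
    exact S4 V hV (hB.2.1.to_le (hVH.trans hHB)) (hVH.trans hHK) hVH
  have hTne : T ≠ ⊥ := by
    intro h
    apply hnot
    rw [← hTP, h]; exact bot_le
  obtain ⟨V, hV, hVT⟩ := exists_minNormal hTn hTne
  have hVp : IsPGroup p V := hTp.to_le hVT
  have hTV : T = V := by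
    have h1 := S3' V hV.1 hV.2.1 hVp (hVT.trans hTK)
    rw [hHbot, bot_sup_eq, ← hTP] at h1
    exact le_antisymm h1 hVT
  obtain ⟨hVu, hVv⟩ := S4c V hV hVp (hVT.trans hTK)
  have hVV := hV.comm hVp
  rw [← hTV] at hVu hVv hVV
  -- P_u and P_v commute
  have hcc : Cz (B ⊓ verb u G) (B ⊓ verb v G) := by
    have h1 : Cz (closure ((B : Set G) ∩ vals u G)) (closure ((B : Set G) ∩ vals v G)) := by
      refine cz_of_closure (fun a ha b hb => ?_)
      have h2 : cm a b ∈ H := by
        refine subset_closure ⟨?_, a, ha.2, b, hb.2, rfl⟩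
        exact B.mul_mem (B.mul_mem (B.mul_mem (B.inv_mem ha.1) (B.inv_mem hb.1)) ha.1) hb.1
      rw [hHbot] at h2
      exact mem_bot.1 h2
    exact h1.mono (hu B hB) (hv B hB)
  -- pass to the quotient by Q
  set f := QuotientGroup.mk' Q with hf
  have hCzmap : ∀ X Y : Subgroup G, Cz X Y → Cz (X.map f) (Y.map f) := by
    rintro X Y hXY _ ⟨x, hx, rfl⟩ _ ⟨y, hy, rfl⟩
    rw [← map_cm, hXY x hx y hy, map_one]
  have hfin := bilin (p := p) (U := (verb u G).map f) (W := (verb v G).map f) (T := T.map f)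
    (C := (B ⊓ verb u G).map f) (D := (B ⊓ verb v G).map f) ?_ (hCzmap _ _ hVu)
    (hCzmap _ _ hVv) (hCzmap _ _ hVV) (hTp.map f) ((hB.inf_normal le_top).map f)
    ((hB.inf_normal le_top).map f) (hCzmap _ _ hcc)
  · -- K is contained in Q
    have h1 : K ≤ Q := by
      rw [hK, verb, closure_le]
      rintro _ ⟨a, ha, b, hb, rfl⟩
      rw [SetLike.mem_coe, ← mk_eq_one_iff' Q, ← hf, map_cm]
      exact hfin _ ⟨a, vals_subset_verb u ha, rfl⟩ _ ⟨b, vals_subset_verb v hb, rfl⟩
    apply hTne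
    have h2 : Nat.card T ∣ Nat.card Q := card_dvd_of_le (hTK.trans h1)
    rw [hn] at h2
    rcases Nat.eq_zero_or_pos n with h0 | h0
    · rw [h0, pow_zero] at hn
      exact card_eq_one.1 hn
    · exact absurd ((dvd_pow_self p h0.ne').trans h2) hQp
  · rintro _ ⟨a, ha, rfl⟩ _ ⟨b, hb, rfl⟩
    rw [← map_cm]
    have h1 : cm a b ∈ Q ⊔ T := S5 (cm_mem_verb_comm u v ha hb)
    obtain ⟨q, hq, y, hy, hqy⟩ := mem_sup_of_normal_right.1 h1
    refine ⟨y, hy, ?_⟩
    rw [← hqy, map_mul, (mk_eq_one_iff' Q q).2 hq, one_mul]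

end

end MP_8aaf67
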