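import Pool.Agent.Work.MP_8aaf67_al.Step

/-!
# Tools: chief factors in soluble groups, transfer, bilinearity
-/

open Subgroup
open scoped commutatorElement

set_option linter.unusedSectionVars false
set_option linter.style.haveILetI false

namespace MP_8aaf67

section
variable {G : Type*} [Group G]

theorem exists_greatest [Finite G] (P : Subgroup G → Prop) (h0 : P ⊥)
    (hsup : ∀ M N, P M → P N → P (M ⊔ N)) : ∃ M, P M ∧ ∀ N, P N → N ≤ M := by
  classical
  obtain ⟨M, hM, hmax⟩ := Set.Finite.exists_maximalFor (fun V : Subgroup G => Nat.card V)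
    {V : Subgroup G | P V} (Set.toFinite _) ⟨⊥, h0⟩
  refine ⟨M, hM, fun N hN => ?_⟩
  have h1 := hmax (hsup M N hM hN) (card_le_of_le le_sup_left)
  have h2 : M = M ⊔ N := eq_of_le_of_card_ge le_sup_left h1
  rw [h2]
  exact le_sup_right

theorem mk_eq_one_iff' (N : Subgroup G) [N.Normal] (x : G) :
    QuotientGroup.mk' N x = 1 ↔ x ∈ N := by
  rw [← MonoidHom.mem_ker, QuotientGroup.ker_mk']

theorem not_dvd_card_sup {p : ℕ} [Fact p.Prime] [Finite G] {M N : Subgroup G} [M.Normal]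
    (hM : ¬ p ∣ Nat.card M) (hN : ¬ p ∣ Nat.card N) : ¬ p ∣ Nat.card (M ⊔ N : Subgroup G) := by
  have h1 : Nat.card (M ⊔ N : Subgroup G) = Nat.card M * M.relIndex N := by
    have := relIndex_mul_relIndex ⊥ M (M ⊔ N) bot_le le_sup_left
    rw [relIndex_bot_left, relIndex_bot_left, relIndex_sup_left] at this
    exact this.symm
  rw [h1, (Fact.out : p.Prime).dvd_mul]
  rintro (h | h)
  · exact hM h
  · exact hN (h.trans (relIndex_dvd_card _ _))

theorem commutator_sup_le (D M : Subgroup G) [M.Normal] : ⁅D ⊔ M, D ⊔ M⁆ ≤ ⁅D, D⁆ ⊔ M := by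
  set f := QuotientGroup.mk' M with hf
  have h1 : (D ⊔ M).map f = D.map f := by
    rw [Subgroup.map_sup, sup_eq_left]
    rintro _ ⟨m, hm, rfl⟩
    rw [(mk_eq_one_iff' M m).2 hm]
    exact one_mem _
  intro x hx
  have h2 : f x ∈ (⁅D ⊔ M, D ⊔ M⁆).map f := ⟨x, hx, rfl⟩
  rw [map_commutator, h1, ← map_commutator] at h2
  obtain ⟨y, hy, hyx⟩ := h2
  have h3 : y⁻¹ * x ∈ M := by
    rw [← mk_eq_one_iff' M, map_mul, map_inv, ← hf, hyx, inv_mul_cancel]
  have e : x = y * (y⁻¹ * x) := by group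
  rw [e]
  exact mul_mem_sup hy h3

theorem sol_chief [Finite G] [Group.IsSolvable G] {M K : Subgroup G} [M.Normal] (hK : K.Normal)
    (hMK : M ≤ K) (hne : ¬ K ≤ M) : ∃ (R : Subgroup G) (r : ℕ), R.Normal ∧ M ≤ R ∧ R ≤ K ∧
      ¬ R ≤ M ∧ r.Prime ∧ ∀ x ∈ R, ∃ k, x ^ (r ^ k) ∈ M := by
  classical
  obtain ⟨R, ⟨hRn, hMR, hRK, hRM⟩, hmin⟩ := Set.Finite.exists_minimalFor
    (fun V : Subgroup G => Nat.card V)
    {V : Subgroup G | V.Normal ∧ M ≤ V ∧ V ≤ K ∧ ¬ V ≤ M} (Set.toFinite _) ⟨K, hK, hMK, le_rfl, hne⟩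
  have hmin' : ∀ N : Subgroup G, N.Normal → M ≤ N → N ≤ R → ¬ N ≤ M → N = R := by
    intro N h1 h2 h3 h4
    exact eq_of_le_of_card_ge h3 (hmin ⟨h1, h2, h3.trans hRK, h4⟩ (card_le_of_le h3))
  set f := QuotientGroup.mk' M with hf
  have hfs : Function.Surjective f := QuotientGroup.mk'_surjective M
  -- R is abelian modulo M
  have hab : ⁅R, R⁆ ≤ M := by
    by_contra hcon
    have hnn : (⁅R, R⁆ ⊔ M : Subgroup G).Normal := inferInstance
    have h1 : ⁅R, R⁆ ⊔ M = R := by
      refine hmin' _ hnn le_sup_right (sup_le ?_ hMR) ?_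
      · exact commutator_le_left R R
      · intro h; exact hcon (le_sup_left.trans h)
    have h2 : ∀ n, R ≤ derivedSeries G n ⊔ M := by
      intro n
      induction n with
      | zero => exact le_top.trans (by rw [derivedSeries_zero, top_sup_eq])
      | succ n ih =>
        calc R = ⁅R, R⁆ ⊔ M := h1.symm
          _ ≤ ⁅derivedSeries G n ⊔ M, derivedSeries G n ⊔ M⁆ ⊔ M :=
              sup_le_sup_right (commutator_mono ih ih) M
          _ ≤ (⁅derivedSeries G n, derivedSeries G n⁆ ⊔ M) ⊔ M :=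
              sup_le_sup_right (commutator_sup_le _ _) M
          _ = derivedSeries G (n + 1) ⊔ M := by rw [sup_assoc, sup_idem]; rfl
    obtain ⟨n, hn⟩ := Group.IsSolvable.solvable (G := G)
    have h3 := h2 n
    rw [hn, bot_sup_eq] at h3
    exact hRM h3
  have hcomm : ∀ x ∈ R, ∀ y ∈ R, Commute (f x) (f y) := by
    intro x hx y hy
    have h1 : ⁅x, y⁆ ∈ M := hab (commutator_mem_commutator hx hy)
    rw [← mk_eq_one_iff' M, ← hf, map_commutatorElement] at h1
    exact commutatorElement_eq_one_iff_commute.1 h1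
  -- choose the prime
  have hidx : M.relIndex R ≠ 1 := fun h => hRM (relIndex_eq_one.1 h)
  set r := (M.relIndex R).minFac with hr
  have hrp : r.Prime := Nat.minFac_prime hidx
  haveI : Fact r.Prime := ⟨hrp⟩
  have hcard : Nat.card (R.map f) = M.relIndex R := by
    have := relIndex_ker (K := R) f
    rw [hf, QuotientGroup.ker_mk'] at this
    exact this.symm
  let S : Subgroup (G ⧸ M) :=
    { carrier := {y | y ∈ R.map f ∧ ∃ k, y ^ (r ^ k) = 1}
      one_mem' := ⟨one_mem _, 0, by simp⟩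
      mul_mem' := by
        rintro x y ⟨hx, k, hk⟩ ⟨hy, l, hl⟩
        refine ⟨mul_mem hx hy, k + l, ?_⟩
        obtain ⟨x', hx', rfl⟩ := hx
        obtain ⟨y', hy', rfl⟩ := hy
        rw [(hcomm x' hx' y' hy').mul_pow, pow_add, pow_mul, hk, one_pow, one_mul, mul_comm,
          pow_mul, hl, one_pow]
      inv_mem' := by
        rintro x ⟨hx, k, hk⟩
        exact ⟨inv_mem hx, k, by rw [inv_pow, hk, inv_one]⟩ }
  have hRmap : (R.map f).Normal := hRn.map f hfs
  have hSn : S.Normal := by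
    refine ⟨fun n hn g => ?_⟩
    obtain ⟨h1, k, hk⟩ := hn
    refine ⟨hRmap.conj_mem n h1 g, k, ?_⟩
    rw [conj_pow, hk]; group
  have hSne : ∃ y ∈ S, y ≠ 1 := by
    obtain ⟨y, hy⟩ := exists_prime_orderOf_dvd_card' (G := R.map f) r
      (by rw [hcard]; exact Nat.minFac_dvd _)
    refine ⟨y, ⟨y.2, 1, ?_⟩, ?_⟩
    · have := pow_orderOf_eq_one y
      rw [hy] at this
      rw [pow_one]
      exact_mod_cast congrArg Subtype.val this
    · intro h
      have : y = 1 := Subtype.ext h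
      rw [this, orderOf_one] at hy
      exact hrp.one_lt.ne hy
  have hSR : S.comap f = R := by
    refine hmin' _ (hSn.comap f) ?_ ?_ ?_
    · intro x hx
      rw [mem_comap, (mk_eq_one_iff' M x).2 hx]
      exact one_mem _
    · intro x hx
      obtain ⟨x', hx', hxx⟩ := (mem_comap.1 hx).1
      have h3 : x'⁻¹ * x ∈ M := by
        rw [← mk_eq_one_iff' M, map_mul, map_inv, ← hf, hxx, inv_mul_cancel]
      have e : x = x' * (x'⁻¹ * x) := by group
      rw [e]
      exact R.mul_mem hx' (hMR h3)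
    · intro h
      obtain ⟨y, hy, hy1⟩ := hSne
      obtain ⟨x, rfl⟩ := hfs y
      exact hy1 ((mk_eq_one_iff' M x).2 (h hy))
  refine ⟨R, r, hRn, hMR, hRK, hRM, hrp, fun x hx => ?_⟩
  rw [← hSR] at hx
  obtain ⟨-, k, hk⟩ := mem_comap.1 hx
  refine ⟨k, ?_⟩
  rw [← mk_eq_one_iff' M, map_pow]
  exact hk

/-- transfer: a central p-element of the commutator subgroup lies in the commutator subgroup
of a Sylow subgroup -/
theorem central_mem_commutator {p : ℕ} [Fact p.Prime] {K : Type*} [Group K] [Finite K]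
    {P : Subgroup K} (hP : IsPGroup p P) (hi : ¬ p ∣ P.index) {z : K} (hz : z ∈ P)
    (hc : z ∈ center K) (hz' : z ∈ commutator K) : z ∈ ⁅P, P⁆ := by
  have h1 : MonoidHom.transfer (Abelianization.of : P →* Abelianization P) z = 1 :=
    Abelianization.commutator_subset_ker _ hz'
  have hcz : ∀ g, g * z = z * g := mem_center_iff.1 hc
  have hpow : z ^ P.index ∈ P := P.pow_mem hz _
  have h2 := MonoidHom.transfer_eq_pow (Abelianization.of : P →* Abelianization P) z
    (fun k g₀ _ => by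
      have : g₀ * z ^ k = z ^ k * g₀ := (Commute.pow_right (hcz g₀) k)
      rw [mul_assoc, ← this]; group)
  rw [h1] at h2
  have h3 : (⟨z, hz⟩ : P) ^ P.index ∈ commutator P := by
    rw [← Abelianization.ker_of, MonoidHom.mem_ker]
    rw [h2]
    congr 1
  -- the exponent is prime to the order of z
  obtain ⟨k, hk⟩ := hP ⟨z, hz⟩
  have hcop : Nat.Coprime (p ^ k) P.index :=
    Nat.Coprime.pow_left _ (((Fact.out : p.Prime).coprime_iff_not_dvd).2 hi)
  have h4 : (⟨z, hz⟩ : P) ∈ commutator P := by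
    have h5 : (⟨z, hz⟩ : P) ^ (1 : ℤ) ∈ commutator P := by
      have hb := Nat.gcd_eq_gcd_ab (p ^ k) P.index
      rw [hcop.gcd_eq_one] at hb
      have : ((1 : ℕ) : ℤ) = 1 := by norm_num
      rw [this] at hb
      rw [hb, zpow_add, zpow_mul, zpow_mul, zpow_natCast, zpow_natCast, hk, one_zpow, one_mul]
      exact zpow_mem h3 _
    simpa using h5
  have h6 : P.subtype ⟨z, hz⟩ ∈ (commutator P).map P.subtype := ⟨_, h4, rfl⟩
  rw [map_subtype_commutator] at h6
  exact h6

end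

section
variable {p : ℕ} [Fact p.Prime] {G : Type*} [Group G] [Finite G]

theorem bilin_half {W T C : Subgroup G} {a : G} (ha : ∀ w ∈ W, cm a w ∈ T)
    (hTW : Cz T W) (hTT : Cz T T) (hT : IsPGroup p T) (hC : SylIn p C W)
    (hac : ∀ c ∈ C, cm a c = 1) : ∀ w ∈ W, cm a w = 1 := by
  have hmul : ∀ w1 ∈ W, ∀ w2 ∈ W, cm a (w1 * w2) = cm a w1 * cm a w2 := by
    intro w1 h1 w2 h2
    have e1 := (cm_eq_one_iff _ _).1 (hTW _ (ha w1 h1) w2 h2)
    have e2 := (cm_eq_one_iff _ _).1 (hTT _ (ha w1 h1) _ (ha w2 h2))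
    have e3 : cm a (w1 * w2) = cm a w2 * (w2⁻¹ * (cm a w1 * w2)) := by simp only [cm]; group
    rw [e3, e1, e2]; group
  let φ : W →* T :=
    { toFun := fun w => ⟨cm a w, ha w w.2⟩
      map_one' := Subtype.ext (by simp [cm])
      map_mul' := fun x y => Subtype.ext (hmul x x.2 y y.2) }
  have h1 : C.subgroupOf W ≤ φ.ker := by
    intro x hx
    rw [MonoidHom.mem_ker]
    exact Subtype.ext (hac x hx)
  have h2 : φ.ker.index ∣ C.relIndex W := index_dvd_of_le h1
  have h3 : Nat.card φ.range ∣ Nat.card T := card_subgroup_dvd_card _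
  obtain ⟨k, hk⟩ := IsPGroup.iff_card.1 hT
  rw [hk, ← index_ker] at h3
  have h4 : φ.ker.index = 1 := eq_one_of_pow_of_not_dvd h3 (fun h => hC.2.2 (h.trans h2))
  intro w hw
  have h5 : (⟨w, hw⟩ : W) ∈ φ.ker := by
    rw [index_eq_one.1 h4]; trivial
  exact congrArg Subtype.val (MonoidHom.mem_ker.1 h5)

theorem cm_inv (a b : G) : (cm a b)⁻¹ = cm b a := by simp only [cm]; group

theorem bilin {U W T C D : Subgroup G} (hUW : ∀ a ∈ U, ∀ w ∈ W, cm a w ∈ T)
    (hTU : Cz T U) (hTW : Cz T W) (hTT : Cz T T) (hT : IsPGroup p T) (hC : SylIn p C U)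
    (hD : SylIn p D W) (hCD : Cz C D) : Cz U W := by
  have h1 : ∀ a ∈ C, ∀ w ∈ W, cm a w = 1 := fun a ha =>
    bilin_half (fun w hw => hUW a (hC.1 ha) w hw) hTW hTT hT hD (fun c hc => hCD a ha c hc)
  intro a ha w hw
  have h2 := bilin_half (a := w) (W := U) (T := T)
    (fun a ha => by rw [← cm_inv]; exact T.inv_mem (hUW a ha w hw)) hTU hTT hT hC
    (fun c hc => by rw [← cm_inv, h1 c hc w hw, inv_one]) a ha
  rw [← cm_inv, h2, inv_one]

end

end MP_8aaf67
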