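import Mathlib

/-!
# Multilinear commutator words, values, verbal subgroups
-/

open Subgroup

namespace MP_8aaf67

universe u

/-- The commutator of the problem file. -/
def cm {G : Type*} [Group G] (a b : G) : G := a⁻¹ * b⁻¹ * a * b

/-- Binary trees, describing the bracketing of a multilinear commutator word. -/
inductive Tree : Type
  | var : Tree
  | comm (u v : Tree) : Tree

/-- The set of values of the word with bracketing t. -/
def vals : Tree → (G : Type*) → [Group G] → Set G
  | Tree.var, _, _ => Set.univ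
  | Tree.comm u v, G, _ => {g | ∃ a ∈ vals u G, ∃ b ∈ vals v G, cm a b = g}

/-- The verbal subgroup. -/
def verb (t : Tree) (G : Type*) [Group G] : Subgroup G := closure (vals t G)

section
variable {G : Type*} [Group G] {H : Type*} [Group H]

theorem map_cm (f : G →* H) (a b : G) : f (cm a b) = cm (f a) (f b) := by
  simp [cm]

theorem one_mem_vals (t : Tree) : (1 : G) ∈ vals t G := by
  induction t with
  | var => trivial
  | comm u v hu hv => exact ⟨1, hu, 1, hv, by simp [cm]⟩

theorem map_mem_vals (t : Tree) (f : G →* H) {g : G} (hg : g ∈ vals t G) : f g ∈ vals t H := by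
  induction t generalizing g with
  | var => trivial
  | comm u v hu hv =>
    obtain ⟨a, ha, b, hb, rfl⟩ := hg
    exact ⟨f a, hu ha, f b, hv hb, (map_cm f a b).symm⟩

theorem exists_of_mem_vals (t : Tree) (f : G →* H) (hf : Function.Surjective f) {h : H}
    (hh : h ∈ vals t H) : ∃ g ∈ vals t G, f g = h := by
  induction t generalizing h with
  | var =>
    obtain ⟨g, hg⟩ := hf h
    exact ⟨g, trivial, hg⟩
  | comm u v hu hv =>
    obtain ⟨a, ha, b, hb, rfl⟩ := hh
    obtain ⟨a', ha', rfl⟩ := hu ha
    obtain ⟨b', hb', rfl⟩ := hv hb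
    exact ⟨cm a' b', ⟨a', ha', b', hb', rfl⟩, map_cm f a' b'⟩

theorem image_vals (t : Tree) (f : G →* H) (hf : Function.Surjective f) :
    f '' vals t G = vals t H := by
  ext h
  constructor
  · rintro ⟨g, hg, rfl⟩
    exact map_mem_vals t f hg
  · intro hh
    obtain ⟨g, hg, rfl⟩ := exists_of_mem_vals t f hf hh
    exact ⟨g, hg, rfl⟩

theorem map_verb (t : Tree) (f : G →* H) (hf : Function.Surjective f) :
    (verb t G).map f = verb t H := by
  rw [verb, verb, MonoidHom.map_closure, image_vals t f hf]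

theorem map_verb_le (t : Tree) (f : G →* H) :
    (verb t G).map f ≤ verb t H := by
  rw [verb, verb, MonoidHom.map_closure, closure_le]
  rintro _ ⟨g, hg, rfl⟩
  exact subset_closure (map_mem_vals t f hg)

theorem conj_mem_vals (t : Tree) (h : G) {g : G} (hg : g ∈ vals t G) : h * g * h⁻¹ ∈ vals t G := by
  have := map_mem_vals t (MulAut.conj h).toMonoidHom hg
  simpa using this

instance verb_normal (t : Tree) : (verb t G).Normal := by
  refine ⟨fun n hn g => ?_⟩
  have h : (verb t G).map (MulAut.conj g).toMonoidHom ≤ verb t G := map_verb_le t _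
  exact h ⟨n, hn, by simp⟩

theorem vals_subset_verb (t : Tree) : vals t G ⊆ verb t G := subset_closure

theorem cm_mem_of_normal_left {N : Subgroup G} [hN : N.Normal] {a : G} (ha : a ∈ N) (b : G) :
    cm a b ∈ N := by
  have h1 := hN.conj_mem a ha b⁻¹
  have : cm a b = a⁻¹ * (b⁻¹ * a * b⁻¹⁻¹) := by simp [cm, mul_assoc]
  rw [this]
  exact N.mul_mem (N.inv_mem ha) h1

theorem cm_mem_of_normal_right {N : Subgroup G} [hN : N.Normal] (a : G) {b : G} (hb : b ∈ N) :
    cm a b ∈ N := by
  have h1 := hN.conj_mem b⁻¹ (N.inv_mem hb) a⁻¹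
  have : cm a b = (a⁻¹ * b⁻¹ * a⁻¹⁻¹) * b := by simp [cm]
  rw [this]
  exact N.mul_mem h1 hb

theorem cm_eq_one_iff (a b : G) : cm a b = 1 ↔ a * b = b * a := by
  rw [cm]
  constructor
  · intro h
    have h2 : (b * a) * (a⁻¹ * b⁻¹ * a * b) = b * a := by rw [h, mul_one]
    have h3 : (b * a) * (a⁻¹ * b⁻¹ * a * b) = a * b := by group
    rw [← h3, h2]
  · intro h
    have : a⁻¹ * b⁻¹ * a * b = (b * a)⁻¹ * (a * b) := by group
    rw [this, h, inv_mul_cancel]

theorem verb_comm_le_left (u v : Tree) : verb (Tree.comm u v) G ≤ verb u G := by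
  rw [verb, closure_le]
  rintro _ ⟨a, ha, b, hb, rfl⟩
  exact cm_mem_of_normal_left (vals_subset_verb u ha) b

theorem verb_comm_le_right (u v : Tree) : verb (Tree.comm u v) G ≤ verb v G := by
  rw [verb, closure_le]
  rintro _ ⟨a, ha, b, hb, rfl⟩
  exact cm_mem_of_normal_right a (vals_subset_verb v hb)

/-- Commutators of elements of closures lie in a subgroup N normalised by the generating sets,
as soon as this holds for the generators. -/
theorem cm_mem_of_closure {S T : Set G} {N : Subgroup G}
    (hS : ∀ s ∈ S, s ∈ normalizer (N : Set G)) (hT : ∀ t ∈ T, t ∈ normalizer (N : Set G))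
    (h : ∀ s ∈ S, ∀ t ∈ T, cm s t ∈ N) :
    ∀ s ∈ closure S, ∀ t ∈ closure T, cm s t ∈ N := by
  have hS' : closure S ≤ normalizer (N : Set G) := (closure_le _).2 hS
  have hT' : closure T ≤ normalizer (N : Set G) := (closure_le _).2 hT
  have hconj : ∀ x ∈ normalizer (N : Set G), ∀ n ∈ N, x⁻¹ * n * x ∈ N := by
    intro x hx n hn
    exact (mem_normalizer_iff''.1 hx n).1 hn
  -- first extend in the second variable
  have h1 : ∀ s ∈ S, ∀ t ∈ closure T, cm s t ∈ N := by
    intro s hs t ht
    induction ht using closure_induction with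
    | mem x hx => exact h s hs x hx
    | one => simp [cm]
    | mul x y hx hy ihx ihy =>
      have e : cm s (x * y) = cm s y * (y⁻¹ * cm s x * y) := by simp only [cm]; group
      rw [e]
      exact N.mul_mem ihy (hconj y (hT' hy) _ ihx)
    | inv x hx ihx =>
      have e : cm s x⁻¹ = (x⁻¹)⁻¹ * (cm s x)⁻¹ * x⁻¹ := by simp only [cm]; group
      rw [e]
      exact hconj _ ((normalizer (N : Set G)).inv_mem (hT' hx)) _ (N.inv_mem ihx)
  intro s hs t ht
  induction hs using closure_induction with
  | mem x hx => exact h1 x hx t ht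
  | one => simp [cm]
  | mul x y hx hy ihx ihy =>
    have e : cm (x * y) t = (y⁻¹ * cm x t * y) * cm y t := by simp only [cm]; group
    rw [e]
    exact N.mul_mem (hconj y (hS' hy) _ ihx) ihy
  | inv x hx ihx =>
    have e : cm x⁻¹ t = (x⁻¹)⁻¹ * (cm x t)⁻¹ * x⁻¹ := by simp only [cm]; group
    rw [e]
    exact hconj _ ((normalizer (N : Set G)).inv_mem (hS' hx)) _ (N.inv_mem ihx)

theorem cm_mem_verb_comm (u v : Tree) {a b : G} (ha : a ∈ verb u G) (hb : b ∈ verb v G) :
    cm a b ∈ verb (Tree.comm u v) G := by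
  refine cm_mem_of_closure (S := vals u G) (T := vals v G) ?_ ?_ ?_ a ha b hb
  · intro s _; rw [normalizer_eq_top]; trivial
  · intro s _; rw [normalizer_eq_top]; trivial
  · intro s hs t ht
    exact subset_closure ⟨s, hs, t, ht, rfl⟩

theorem commutator_le_of_cm {U W N : Subgroup G} (h : ∀ a ∈ U, ∀ b ∈ W, cm a b ∈ N) :
    ⁅U, W⁆ ≤ N := by
  rw [commutator_le]
  intro a ha b hb
  have := h a⁻¹ (U.inv_mem ha) b⁻¹ (W.inv_mem hb)
  simpa [cm, commutatorElement_def] using this

theorem verb_perfect (h : commutator G = ⊤) (t : Tree) : verb t G = ⊤ := by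
  induction t with
  | var =>
    rw [eq_top_iff]
    intro g _
    exact subset_closure trivial
  | comm u v hu hv =>
    rw [eq_top_iff, ← h]
    have : commutator G = ⁅verb u G, verb v G⁆ := by rw [hu, hv]; rfl
    rw [this]
    exact commutator_le_of_cm (fun a ha b hb => cm_mem_verb_comm u v ha hb)

end

/-! ### Words in a free group -/

/-- Multilinear commutator words, together with the finite set of the variables that occur. -/
inductive IsMCW : Finset ℕ → FreeGroup ℕ → Prop
  | var (i : ℕ) : IsMCW {i} (FreeGroup.of i)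
  | comm {s t : Finset ℕ} {u v : FreeGroup ℕ} (hst : Disjoint s t) (hu : IsMCW s u)
      (hv : IsMCW t v) : IsMCW (s ∪ t) (cm u v)

/-- The set of values of a word in a group. -/
def wordValues (w : FreeGroup ℕ) (G : Type*) [Group G] : Set G :=
  {g | ∃ f : ℕ → G, FreeGroup.lift f w = g}

theorem IsMCW.lift_congr {s : Finset ℕ} {w : FreeGroup ℕ} (hw : IsMCW s w) {G : Type*} [Group G]
    (f g : ℕ → G) (hfg : ∀ i ∈ s, f i = g i) : FreeGroup.lift f w = FreeGroup.lift g w := by
  induction hw with
  | var i => simpa using hfg i (by simp)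
  | comm hst hu hv ihu ihv =>
    rw [map_cm, map_cm, ihu (fun i hi => hfg i (Finset.mem_union_left _ hi)),
      ihv (fun i hi => hfg i (Finset.mem_union_right _ hi))]

/-- The relation between a multilinear word and its bracketing. -/
inductive HasTree : FreeGroup ℕ → Tree → Prop
  | var (i : ℕ) : HasTree (FreeGroup.of i) Tree.var
  | comm {s t : Finset ℕ} {u v : FreeGroup ℕ} {a b : Tree} (hst : Disjoint s t) (hu : IsMCW s u)
      (hv : IsMCW t v) (ha : HasTree u a) (hb : HasTree v b) : HasTree (cm u v) (Tree.comm a b)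

theorem IsMCW.hasTree {s : Finset ℕ} {w : FreeGroup ℕ} (hw : IsMCW s w) : ∃ t, HasTree w t := by
  induction hw with
  | var i => exact ⟨_, HasTree.var i⟩
  | comm hst hu hv ihu ihv =>
    obtain ⟨a, ha⟩ := ihu
    obtain ⟨b, hb⟩ := ihv
    exact ⟨_, HasTree.comm hst hu hv ha hb⟩

theorem HasTree.wordValues_eq {w : FreeGroup ℕ} {t : Tree} (h : HasTree w t) (G : Type*)
    [Group G] : wordValues w G = vals t G := by
  induction h with
  | var i =>
    ext g
    simp only [vals, Set.mem_univ, iff_true]
    exact ⟨fun _ => g, by simp⟩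
  | @comm s t u v a b hst hu hv ha hb iha ihb =>
    ext g
    constructor
    · rintro ⟨f, rfl⟩
      refine ⟨FreeGroup.lift f u, ?_, FreeGroup.lift f v, ?_, (map_cm _ _ _).symm⟩
      · rw [← iha]; exact ⟨f, rfl⟩
      · rw [← ihb]; exact ⟨f, rfl⟩
    · rintro ⟨x, hx, y, hy, rfl⟩
      rw [← iha] at hx
      rw [← ihb] at hy
      obtain ⟨f1, rfl⟩ := hx
      obtain ⟨f2, rfl⟩ := hy
      refine ⟨fun i => if i ∈ s then f1 i else f2 i, ?_⟩
      rw [map_cm]
      congr 1
      · exact hu.lift_congr _ _ (fun i hi => by simp [hi])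
      · refine hv.lift_congr _ _ (fun i hi => ?_)
        have : i ∉ s := fun h => (Finset.disjoint_left.1 hst h hi)
        simp [this]

end MP_8aaf67
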